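import Mathlib

set_option linter.unusedSectionVars false
set_option linter.unusedVariables false

/-! Coordinates `A ^ (ZMod p)` (p prime), a limit coordinate `ℤ → A`, and a shift. -/

namespace Pool.Agent.Helper22.OR

open Filter

/-- triples: a family of functions `ZMod p → A`, a function `ℤ → A`, and an integer -/
@[ext] structure U (A : Type) where
  f : (p : Nat.Primes) → ZMod (p : ℕ) → A
  h : ℤ → A
  n : ℤ

variable {A : Type} [Group A]

instance : Mul (U A) :=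
  ⟨fun x y => ⟨fun p i => x.f p i * y.f p (i - (x.n : ZMod (p : ℕ))),
    fun k => x.h k * y.h (k - x.n), x.n + y.n⟩⟩
instance : One (U A) := ⟨⟨fun _ _ => 1, fun _ => 1, 0⟩⟩
instance : Inv (U A) :=
  ⟨fun x => ⟨fun p i => (x.f p (i + (x.n : ZMod (p : ℕ))))⁻¹, fun k => (x.h (k + x.n))⁻¹, -x.n⟩⟩

@[simp] lemma mul_f (x y : U A) (p : Nat.Primes) (i : ZMod (p : ℕ)) :
    (x * y).f p i = x.f p i * y.f p (i - (x.n : ZMod (p : ℕ))) := rfl
@[simp] lemma mul_h (x y : U A) (k : ℤ) : (x * y).h k = x.h k * y.h (k - x.n) := rfl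
@[simp] lemma mul_n (x y : U A) : (x * y).n = x.n + y.n := rfl
@[simp] lemma one_f (p : Nat.Primes) (i : ZMod (p : ℕ)) : (1 : U A).f p i = 1 := rfl
@[simp] lemma one_h (k : ℤ) : (1 : U A).h k = 1 := rfl
@[simp] lemma one_n : (1 : U A).n = 0 := rfl
@[simp] lemma inv_f (x : U A) (p : Nat.Primes) (i : ZMod (p : ℕ)) :
    (x⁻¹).f p i = (x.f p (i + (x.n : ZMod (p : ℕ))))⁻¹ := rfl
@[simp] lemma inv_h (x : U A) (k : ℤ) : (x⁻¹).h k = (x.h (k + x.n))⁻¹ := rfl
@[simp] lemma inv_n (x : U A) : (x⁻¹).n = -x.n := rfl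

lemma ext3 {x y : U A} (h1 : ∀ p i, x.f p i = y.f p i) (h2 : ∀ k, x.h k = y.h k)
    (h3 : x.n = y.n) : x = y := by
  apply U.ext
  · funext p i; exact h1 p i
  · funext k; exact h2 k
  · exact h3

instance : Group (U A) :=
  Group.ofLeftAxioms
    (by
      intro x y z
      apply ext3
      · intro p i
        simp only [mul_f, mul_n, Int.cast_add, mul_assoc]
        rw [sub_sub]
      · intro k
        simp only [mul_h, mul_n, mul_assoc]
        rw [sub_sub]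
      · simp only [mul_n]; ring)
    (by
      intro x
      apply ext3 <;> intros <;> simp)
    (by
      intro x
      apply ext3 <;> intros <;> simp)

lemma ev_gt (N : ℕ) : ∀ᶠ p : Nat.Primes in cofinite, N < (p : ℕ) := by
  rw [Filter.eventually_cofinite]
  have : {p : Nat.Primes | ¬ N < (p : ℕ)} = (fun p : Nat.Primes => (p : ℕ)) ⁻¹' (Set.Iic N) := by
    ext p; simp
  rw [this]
  apply Set.Finite.preimage _ (Set.finite_Iic N)
  exact (Nat.Primes.coe_nat_injective).injOn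

/-- the shift of a function with bounded support is compatible with reduction, for large `p` -/
lemma shiftL {h : ℤ → A} {c : ℕ} (hc : ∀ k : ℤ, (c : ℤ) < |k| → h k = 1) (n : ℤ) (p : Nat.Primes)
    (hp : 2 * (c + n.natAbs) < (p : ℕ)) (i : ZMod (p : ℕ)) :
    h ((i - (n : ZMod (p : ℕ))).valMinAbs) = h (i.valMinAbs - n) := by
  have : NeZero (p : ℕ) := ⟨p.2.ne_zero⟩
  set u := i.valMinAbs with hu
  set v := (i - (n : ZMod (p : ℕ))).valMinAbs with hv
  have hu1 := i.valMinAbs_mem_Ioc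
  have hv1 := (i - (n : ZMod (p : ℕ))).valMinAbs_mem_Ioc
  rw [← hu] at hu1
  rw [← hv] at hv1
  obtain ⟨hu1, hu2⟩ := hu1
  obtain ⟨hv1, hv2⟩ := hv1
  have hd : ((p : ℕ) : ℤ) ∣ v - (u - n) := by
    rw [← ZMod.intCast_zmod_eq_zero_iff_dvd]
    push_cast
    rw [hv, hu, ZMod.coe_valMinAbs, ZMod.coe_valMinAbs]
    ring
  obtain ⟨m, hm⟩ := hd
  have hp' : (2 * (c + |n|) : ℤ) < (p : ℕ) := by
    have : ((2 * (c + n.natAbs) : ℕ) : ℤ) < ((p : ℕ) : ℤ) := by exact_mod_cast hp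
    push_cast at this
    simpa using this
  set P : ℤ := ((p : ℕ) : ℤ) with hP
  have hn1 := le_abs_self n
  have hn2 := neg_abs_le n
  have hP0 : 0 < P := by
    have := abs_nonneg n
    have : (0 : ℤ) ≤ (c : ℤ) := by positivity
    linarith
  rcases lt_trichotomy m 0 with h0 | h0 | h0
  · have : P * m ≤ -P := by nlinarith
    rw [hc v, hc (u - n)]
    · rw [lt_abs]; left; linarith
    · rw [lt_abs]; right; linarith
  · subst h0
    have : v = u - n := by linarith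
    rw [this]
  · have : P ≤ P * m := by nlinarith
    rw [hc v, hc (u - n)]
    · rw [lt_abs]; right; linarith
    · rw [lt_abs]; left; linarith

def Bd (h : ℤ → A) : Prop := ∃ c : ℕ, ∀ k : ℤ, (c : ℤ) < |k| → h k = 1

lemma shiftE {h : ℤ → A} (hc : Bd h) (n : ℤ) :
    ∀ᶠ p : Nat.Primes in cofinite, ∀ i : ZMod (p : ℕ),
      h ((i - (n : ZMod (p : ℕ))).valMinAbs) = h (i.valMinAbs - n) := by
  obtain ⟨c, hc⟩ := hc
  filter_upwards [ev_gt (2 * (c + n.natAbs))] with p hp i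
  exact shiftL hc n p hp i

lemma Bd.shift {h : ℤ → A} (hc : Bd h) (n : ℤ) : Bd (fun k => h (k - n)) := by
  obtain ⟨c, hc⟩ := hc
  refine ⟨c + n.natAbs, fun k hk => hc _ ?_⟩
  push_cast at hk
  have h1 : |k| ≤ |k - n| + |n| := by
    calc |k| = |(k - n) + n| := by ring_nf
      _ ≤ _ := abs_add_le _ _
  linarith

lemma Bd.mul {h h' : ℤ → A} (hc : Bd h) (hc' : Bd h') : Bd (fun k => h k * h' k) := by
  obtain ⟨c, hc⟩ := hc
  obtain ⟨c', hc'⟩ := hc'
  refine ⟨c + c', fun k hk => ?_⟩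
  push_cast at hk
  show h k * h' k = 1
  rw [hc k (by linarith [Int.natCast_nonneg c']), hc' k (by linarith [Int.natCast_nonneg c]), one_mul]

lemma Bd.inv {h : ℤ → A} (hc : Bd h) : Bd (fun k => (h k)⁻¹) := by
  obtain ⟨c, hc⟩ := hc
  exact ⟨c, fun k hk => by show (h k)⁻¹ = 1; rw [hc k hk, inv_one]⟩

/-- the group: families which are eventually given by the limit function -/
def GG (A : Type) [Group A] : Subgroup (U A) where
  carrier := {x | Bd x.h ∧ ∀ᶠ p : Nat.Primes in cofinite, ∀ i : ZMod (p : ℕ),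
    x.f p i = x.h i.valMinAbs}
  one_mem' := ⟨⟨0, fun _ _ => rfl⟩, Eventually.of_forall fun p i => rfl⟩
  mul_mem' := by
    rintro x y ⟨hx1, hx2⟩ ⟨hy1, hy2⟩
    refine ⟨hx1.mul (hy1.shift x.n), ?_⟩
    filter_upwards [hx2, hy2, shiftE hy1 x.n] with p h1 h2 h3 i
    rw [mul_f, mul_h, h1, h2, h3]
  inv_mem' := by
    rintro x ⟨hx1, hx2⟩
    refine ⟨by
      have h0 := (hx1.shift (-x.n)).inv
      have h1 : (fun k => (x.h (k - -x.n))⁻¹) = x⁻¹.h := by
        funext k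
        rw [inv_h, sub_neg_eq_add]
      rw [h1] at h0
      exact h0, ?_⟩
    filter_upwards [hx2, shiftE hx1 (-x.n)] with p h1 h3 i
    rw [inv_f, inv_h, h1]
    have := h3 i
    push_cast at this
    rw [sub_neg_eq_add, sub_neg_eq_add] at this
    rw [this]

/-- `S n k a`: value `a` at position `k` in all coordinates `p ∤ n` -/
def S (n : ℕ) (k : ℤ) (a : A) : U A :=
  ⟨fun p => if (p : ℕ) ∣ n then 1 else Pi.mulSingle (k : ZMod (p : ℕ)) a, Pi.mulSingle k a, 0⟩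

@[simp] lemma S_n (n : ℕ) (k : ℤ) (a : A) : (S n k a).n = 0 := rfl
@[simp] lemma S_h (n : ℕ) (k : ℤ) (a : A) : (S n k a).h = Pi.mulSingle k a := rfl
lemma S_f1 (n : ℕ) (k : ℤ) (a : A) (p : Nat.Primes) (hp : (p : ℕ) ∣ n) : (S n k a).f p = 1 := by
  simp [S, hp]
lemma S_f2 (n : ℕ) (k : ℤ) (a : A) (p : Nat.Primes) (hp : ¬ (p : ℕ) ∣ n) :
    (S n k a).f p = Pi.mulSingle (k : ZMod (p : ℕ)) a := by
  simp [S, hp]
lemma S_f0 (k : ℤ) (a : A) (p : Nat.Primes) :
    (S 1 k a).f p = Pi.mulSingle (k : ZMod (p : ℕ)) a :=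
  S_f2 1 k a p (by simpa using p.2.one_lt.ne')

/-- supported at the coordinate `q` -/
def Bq (q : Nat.Primes) (y : ZMod (q : ℕ) → A) : U A := ⟨Pi.mulSingle q y, 1, 0⟩

@[simp] lemma Bq_n (q : Nat.Primes) (y : ZMod (q : ℕ) → A) : (Bq q y).n = 0 := rfl
@[simp] lemma Bq_h (q : Nat.Primes) (y : ZMod (q : ℕ) → A) : (Bq q y).h = 1 := rfl
@[simp] lemma Bq_f1 (q : Nat.Primes) (y : ZMod (q : ℕ) → A) : (Bq q y).f q = y := by simp [Bq]
lemma Bq_f2 (q : Nat.Primes) (y : ZMod (q : ℕ) → A) (p : Nat.Primes) (hp : p ≠ q) :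
    (Bq q y).f p = 1 := by simp [Bq, hp]

/-- the shift -/
def T (k : ℤ) : U A := ⟨1, 1, k⟩

@[simp] lemma T_n (k : ℤ) : (T k : U A).n = k := rfl
@[simp] lemma T_h (k : ℤ) : (T k : U A).h = 1 := rfl
@[simp] lemma T_f (k : ℤ) (p : Nat.Primes) : (T k : U A).f p = 1 := rfl

lemma T_inv (k : ℤ) : (T k : U A)⁻¹ = T (-k) := by
  apply ext3 <;> intros <;> simp

lemma T_add (k l : ℤ) : (T (k + l) : U A) = T k * T l := by
  apply ext3 <;> intros <;> simp

lemma T_zpow (k : ℤ) : (T k : U A) = (T 1) ^ k := by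
  let F : Multiplicative ℤ →* U A :=
    { toFun := fun m => T m.toAdd
      map_one' := by apply ext3 <;> intros <;> simp
      map_mul' := fun a b => by
        show T (a.toAdd + b.toAdd) = _
        exact T_add _ _ }
  have h1 : (T k : U A) = F (Multiplicative.ofAdd k) := rfl
  have h2 : (T 1 : U A) = F (Multiplicative.ofAdd 1) := rfl
  rw [h1, h2, ← map_zpow, ← ofAdd_zsmul]
  simp

lemma T_mem (k : ℤ) : (T k : U A) ∈ GG A :=
  ⟨⟨0, fun _ _ => rfl⟩, Eventually.of_forall fun p i => rfl⟩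

lemma Bq_mem (q : Nat.Primes) (y : ZMod (q : ℕ) → A) : Bq q y ∈ GG A := by
  refine ⟨⟨0, fun _ _ => rfl⟩, ?_⟩
  filter_upwards [ev_gt (q : ℕ)] with p hp i
  rw [Bq_f2 q y p (by rintro rfl; exact lt_irrefl _ hp)]
  rfl

lemma single_red (k : ℤ) (a : A) (p : Nat.Primes) (hp : 2 * k.natAbs < (p : ℕ))
    (i : ZMod (p : ℕ)) :
    (Pi.mulSingle (k : ZMod (p : ℕ)) a : ZMod (p : ℕ) → A) i
      = (Pi.mulSingle k a : ℤ → A) i.valMinAbs := by
  have : NeZero (p : ℕ) := ⟨p.2.ne_zero⟩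
  have key : i.valMinAbs = k ↔ i = (k : ZMod (p : ℕ)) := by
    rw [ZMod.valMinAbs_spec]
    constructor
    · exact fun h => h.1
    · intro h
      refine ⟨h, ?_, ?_⟩ <;> omega
  by_cases h : i = (k : ZMod (p : ℕ))
  · rw [key.2 h, h]; simp
  · have h' : i.valMinAbs ≠ k := fun h2 => h (key.1 h2)
    rw [Pi.mulSingle_eq_of_ne h, Pi.mulSingle_eq_of_ne h']

lemma single_Bd (k : ℤ) (a : A) : Bd (Pi.mulSingle k a : ℤ → A) := by
  refine ⟨k.natAbs, fun j hj => Pi.mulSingle_eq_of_ne ?_ _⟩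
  rintro rfl
  rw [Int.natCast_natAbs] at hj
  exact lt_irrefl _ hj

lemma S_mem (n : ℕ) (hn : n ≠ 0) (k : ℤ) (a : A) : S n k a ∈ GG A := by
  refine ⟨single_Bd k a, ?_⟩
  filter_upwards [ev_gt n, ev_gt (2 * k.natAbs)] with p hp hp2 i
  rw [S_f2 n k a p (fun h => by
    have := Nat.le_of_dvd (Nat.pos_of_ne_zero hn) h
    omega)]
  exact single_red k a p hp2 i

/-- any bounded function is the limit function of an element of the group -/
lemma lift_mem (h : ℤ → A) (hb : Bd h) : ∃ x ∈ GG A, x.n = 0 ∧ x.h = h :=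
  ⟨⟨fun p i => h i.valMinAbs, h, 0⟩, ⟨hb, Eventually.of_forall fun p i => rfl⟩, rfl, rfl⟩

/-- if the `f` part is trivial then so is the `h` part -/
lemma h_of_f {x : U A} (hx : x ∈ GG A) (hf : ∀ᶠ p : Nat.Primes in cofinite, x.f p = 1) :
    x.h = 1 := by
  funext k
  have h1 := hx.2
  obtain ⟨p, h1, h2, h3⟩ := (h1.and (hf.and (ev_gt (2 * k.natAbs)))).exists
  have : NeZero (p : ℕ) := ⟨p.2.ne_zero⟩
  have h4 := h1 (k : ZMod (p : ℕ))
  have h5 : ((k : ZMod (p : ℕ))).valMinAbs = k := by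
    rw [ZMod.valMinAbs_spec]
    refine ⟨rfl, ?_, ?_⟩ <;> omega
  rw [h5, h2] at h4
  exact h4.symm

/-! ### facts on `A` -/

/-- non commutative -/
class NC (A : Type) [Group A] : Prop where
  ex : ∃ a b : A, a * b ≠ b * a

variable [IsSimpleGroup A] [NC A]

lemma normal_top (H : Subgroup A) (hH : ∀ b a, a ∈ H → b * a * b⁻¹ ∈ H) (hne : ∃ x ∈ H, x ≠ 1) :
    H = ⊤ := by
  have hn : H.Normal := ⟨fun a ha b => hH b a ha⟩
  rcases hn.eq_bot_or_eq_top with h | h
  · obtain ⟨x, hx, hx1⟩ := hne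
    rw [h, Subgroup.mem_bot] at hx
    exact absurd hx hx1
  · exact h

lemma exists_not_comm (x : A) (hx : x ≠ 1) : ∃ a : A, x * a * x⁻¹ * a⁻¹ ≠ 1 := by
  by_contra hcon
  push Not at hcon
  have hx' : x ∈ Subgroup.center A := by
    rw [Subgroup.mem_center_iff]
    intro g
    have := hcon g
    have h2 : x * g * x⁻¹ = g := mul_inv_eq_one.1 this
    have h3 : x * g = g * x := mul_inv_eq_iff_eq_mul.1 h2
    exact h3.symm
  have : Subgroup.center A = ⊤ := normal_top _ (fun b a ha => (inferInstance :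
    (Subgroup.center A).Normal).conj_mem a ha b) ⟨x, hx', hx⟩
  obtain ⟨a, b, hab⟩ := NC.ex (A := A)
  apply hab
  have : b ∈ Subgroup.center A := by rw [this]; trivial
  rw [Subgroup.mem_center_iff] at this
  exact this a

lemma eq_one_of_comm (x : A) (hx : ∀ a : A, x * a * x⁻¹ = a) : x = 1 := by
  by_contra h
  obtain ⟨a, ha⟩ := exists_not_comm x h
  exact ha (by rw [hx a, mul_inv_cancel])

end Pool.Agent.Helper22.OR
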