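import Pool.Agent.Helper22.OR.O1

set_option linter.unusedSectionVars false
set_option linter.unusedVariables false

namespace Pool.Agent.Helper22.OR

open Filter

variable {A : Type} [Group A]

lemma conj_f (x b : U A) (hb : b.n = 0) (p : Nat.Primes) (i : ZMod (p : ℕ)) :
    (x * b * x⁻¹).f p i = x.f p i * b.f p (i - (x.n : ZMod (p : ℕ))) * (x.f p i)⁻¹ := by
  simp [hb]

lemma conj_h (x b : U A) (hb : b.n = 0) (k : ℤ) :
    (x * b * x⁻¹).h k = x.h k * b.h (k - x.n) * (x.h k)⁻¹ := by
  simp [hb]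

lemma conj_n (x b : U A) (hb : b.n = 0) : (x * b * x⁻¹).n = 0 := by
  simp [hb]

lemma single_shift {I : Type} [AddCommGroup I] [DecidableEq I] (u j i : I) (a : A) :
    (Pi.mulSingle u a : I → A) (i - j) = (Pi.mulSingle (u + j) a : I → A) i := by
  by_cases h : i = u + j
  · subst h; simp
  · rw [Pi.mulSingle_eq_of_ne h, Pi.mulSingle_eq_of_ne]
    intro h2
    apply h
    rw [← h2]; abel

lemma T_conj_S (n : ℕ) (k j : ℤ) (a : A) : T j * S n k a * (T j)⁻¹ = S n (k + j) a := by
  apply ext3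
  · intro p i
    rw [conj_f _ _ (by simp)]
    by_cases h : (p : ℕ) ∣ n
    · rw [S_f1 _ _ _ _ h, S_f1 _ _ _ _ h]; simp
    · rw [S_f2 _ _ _ _ h, S_f2 _ _ _ _ h]
      simp only [T_f, T_n, Pi.one_apply, one_mul, inv_one, mul_one]
      rw [single_shift]
      push_cast
      rfl
  · intro i
    rw [conj_h _ _ (by simp)]
    simp only [T_h, T_n, Pi.one_apply, one_mul, inv_one, mul_one, S_h]
    rw [single_shift]
  · simp

lemma conj_Bq (x : U A) (q : Nat.Primes) (y : ZMod (q : ℕ) → A) :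
    x * Bq q y * x⁻¹
      = Bq q (fun i => x.f q i * y (i - (x.n : ZMod (q : ℕ))) * (x.f q i)⁻¹) := by
  apply ext3
  · intro p i
    rw [conj_f _ _ (by simp)]
    by_cases h : p = q
    · subst h; simp
    · rw [Bq_f2 _ _ _ h, Bq_f2 _ _ _ h]; simp
  · intro k
    rw [conj_h _ _ (by simp)]
    simp
  · simp

lemma Bq_mul (q : Nat.Primes) (y z : ZMod (q : ℕ) → A) : Bq q (y * z) = Bq q y * Bq q z := by
  apply ext3
  · intro p i
    by_cases h : p = q
    · subst h; simp
    · simp [Bq_f2 _ _ _ h]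
  · intro k; simp
  · simp

lemma Bq_one (q : Nat.Primes) : Bq q (1 : ZMod (q : ℕ) → A) = 1 := by
  apply ext3
  · intro p i
    by_cases h : p = q
    · subst h; simp
    · simp [Bq_f2 _ _ _ h]
  · intro k; simp
  · simp

lemma Bq_inv (q : Nat.Primes) (y : ZMod (q : ℕ) → A) : Bq q (y⁻¹) = (Bq q y)⁻¹ := by
  rw [eq_inv_iff_mul_eq_one, ← Bq_mul, inv_mul_cancel, Bq_one]

lemma Bq_inj {q : Nat.Primes} {y z : ZMod (q : ℕ) → A} (h : Bq q y = Bq q z) : y = z := by
  have := congrArg (fun x : U A => x.f q) h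
  simpa using this

lemma exists_lift (q : Nat.Primes) (i : ZMod (q : ℕ)) : ∃ k : ℤ, (k : ZMod (q : ℕ)) = i :=
  ⟨i.valMinAbs, ZMod.coe_valMinAbs i⟩

variable [IsSimpleGroup A] [NC A]

lemma fill (K : Subgroup (U A)) (hT : ∀ j : ℤ, ∀ x ∈ K, T j * x * (T j)⁻¹ ∈ K)
    (p : Nat.Primes)
    (hc : ∀ b a : A, Bq p (Pi.mulSingle 0 a) ∈ K → Bq p (Pi.mulSingle 0 (b * a * b⁻¹)) ∈ K)
    (hne : ∃ i, ∃ a : A, a ≠ 1 ∧ Bq p (Pi.mulSingle i a) ∈ K) : ∀ y, Bq p y ∈ K := by
  have hp : NeZero (p : ℕ) := ⟨p.2.ne_zero⟩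
  have hTs : ∀ (k : ℤ) (i : ZMod (p : ℕ)) (a : A), Bq p (Pi.mulSingle i a) ∈ K →
      Bq p (Pi.mulSingle (i + (k : ZMod (p : ℕ))) a) ∈ K := by
    intro k i a h
    have h1 := hT k _ h
    rw [conj_Bq] at h1
    have h2 : (fun u => (T k : U A).f p u * (Pi.mulSingle i a : ZMod (p : ℕ) → A)
        (u - ((T k : U A).n : ZMod (p : ℕ))) * ((T k : U A).f p u)⁻¹)
        = Pi.mulSingle (i + (k : ZMod (p : ℕ))) a := by
      funext u
      simp only [T_f, T_n, Pi.one_apply, one_mul, inv_one, mul_one]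
      exact single_shift _ _ _ _
    rw [h2] at h1
    exact h1
  let H : Subgroup A :=
    { carrier := {a | Bq p (Pi.mulSingle 0 a) ∈ K}
      one_mem' := by
        show Bq p (Pi.mulSingle 0 1) ∈ K
        rw [Pi.mulSingle_one, Bq_one]; exact K.one_mem
      mul_mem' := by
        intro a b ha hb
        show Bq p (Pi.mulSingle 0 (a * b)) ∈ K
        rw [Pi.mulSingle_mul, Bq_mul]; exact K.mul_mem ha hb
      inv_mem' := by
        intro a ha
        show Bq p (Pi.mulSingle 0 (a⁻¹)) ∈ K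
        rw [Pi.mulSingle_inv, Bq_inv]; exact K.inv_mem ha }
  have hH : H = ⊤ := by
    apply normal_top
    · intro b a ha; exact hc b a ha
    · obtain ⟨i, a, ha, h⟩ := hne
      refine ⟨a, ?_, ha⟩
      obtain ⟨k, rfl⟩ := exists_lift p i
      have h1 := hTs (-k) _ _ h
      push_cast at h1
      rw [add_neg_cancel] at h1
      exact h1
  have h0 : ∀ i (a : A), Bq p (Pi.mulSingle i a) ∈ K := by
    intro i a
    have h1 : a ∈ H := by rw [hH]; trivial
    obtain ⟨k, rfl⟩ := exists_lift p i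
    have h2 := hTs k _ _ h1
    rw [zero_add] at h2
    exact h2
  have h3 : ∀ J : Finset (ZMod (p : ℕ)), ∀ y : ZMod (p : ℕ) → A, (∀ i ∉ J, y i = 1) →
      Bq p y ∈ K := by
    intro J
    induction J using Finset.induction_on with
    | empty =>
      intro y hy
      have : y = 1 := by funext i; exact hy i (by simp)
      rw [this, Bq_one]; exact K.one_mem
    | insert i J hi ih =>
      intro y hy
      have h4 : y = Pi.mulSingle i (y i) * Function.update y i 1 := by
        funext j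
        by_cases h : j = i
        · subst h; simp
        · simp [h]
      rw [h4, Bq_mul]
      apply K.mul_mem (h0 _ _)
      apply ih
      intro j hj
      by_cases h : j = i
      · subst h; simp
      · rw [Function.update_of_ne h]
        exact hy j (by simp [h, hj])
  intro y
  exact h3 Finset.univ y (by simp)

lemma N_ind (K : Subgroup (U A)) (n : ℕ)
    (hK : ∀ q : Nat.Primes, ¬ (q : ℕ) ∣ n → ∀ y, Bq q y ∈ K) :
    ∀ x ∈ GG A, x.n = 0 → x.h = 1 → (∀ p : Nat.Primes, (p : ℕ) ∣ n → x.f p = 1) → x ∈ K := by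
  have main : ∀ P : Finset Nat.Primes, ∀ x : U A, x.n = 0 → x.h = 1 →
      (∀ p : Nat.Primes, (p : ℕ) ∣ n → x.f p = 1) → (∀ p ∉ P, x.f p = 1) → x ∈ K := by
    intro P
    induction P using Finset.induction_on with
    | empty =>
      intro x h1 h2 h3 h4
      have : x = 1 := by
        apply ext3
        · intro p i; rw [h4 p (by simp)]; rfl
        · intro k; rw [h2]; rfl
        · exact h1
      rw [this]; exact K.one_mem
    | insert q P hq ih =>
      intro x h1 h2 h3 h4
      by_cases hqn : (q : ℕ) ∣ n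
      · apply ih x h1 h2 h3
        intro p hp
        by_cases h : p = q
        · subst h; exact h3 _ hqn
        · exact h4 p (by simp [h, hp])
      · have h5 : x = Bq q (x.f q) * ((Bq q (x.f q))⁻¹ * x) := by simp
        rw [h5]
        apply K.mul_mem (hK q hqn _)
        apply ih
        · simp [h1]
        · funext k; simp [h2]
        · intro p hp
          have : p ≠ q := by rintro rfl; exact hqn hp
          funext i
          simp [Bq_f2 _ _ _ this, h3 p hp]
        · intro p hp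
          funext i
          by_cases h : p = q
          · subst h; simp
          · simp [Bq_f2 _ _ _ h, h4 p (by simp [h, hp])]
  intro x hx h1 h2 h3
  have h4 : {p : Nat.Primes | ¬ x.f p = 1}.Finite := by
    have := hx.2
    have h5 : ∀ᶠ p : Nat.Primes in cofinite, x.f p = 1 := by
      filter_upwards [this] with p hp
      funext i
      rw [hp i, h2]; rfl
    rwa [Filter.eventually_cofinite] at h5
  apply main h4.toFinset x h1 h2 h3
  intro p hp
  by_contra h
  exact hp (by simpa using h)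

lemma S_mul (n : ℕ) (k : ℤ) (a b : A) : S n k (a * b) = S n k a * S n k b := by
  apply ext3
  · intro p i
    by_cases h : (p : ℕ) ∣ n
    · simp [S_f1 _ _ _ _ h]
    · simp [S_f2 _ _ _ _ h, Pi.mulSingle_mul]
  · intro j; simp [Pi.mulSingle_mul]
  · simp

lemma S_one (n : ℕ) (k : ℤ) : S n k (1 : A) = 1 := by
  apply ext3
  · intro p i
    by_cases h : (p : ℕ) ∣ n
    · simp [S_f1 _ _ _ _ h]
    · simp [S_f2 _ _ _ _ h]
  · intro j; simp
  · simp

lemma S_inv (n : ℕ) (k : ℤ) (a : A) : S n k (a⁻¹) = (S n k a)⁻¹ := by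
  rw [eq_inv_iff_mul_eq_one, ← S_mul, inv_mul_cancel, S_one]

/-- the commutator of `S n 0 a` and `S n q b` is supported at the coordinate `q` -/
lemma comm_S (n : ℕ) (q : Nat.Primes) (hq : ¬ (q : ℕ) ∣ n) (a b : A) :
    S n 0 a * S n ((q : ℕ) : ℤ) b * (S n 0 a)⁻¹ * (S n ((q : ℕ) : ℤ) b)⁻¹
      = Bq q (Pi.mulSingle 0 (a * b * a⁻¹ * b⁻¹)) := by
  apply ext3
  · intro p i
    by_cases h : (p : ℕ) ∣ n
    · have : p ≠ q := by rintro rfl; exact hq h
      simp [S_f1 _ _ _ _ h, Bq_f2 _ _ _ this]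
    · simp only [mul_f, inv_f, mul_n, S_n, inv_n, S_f2 _ _ _ _ h]
      by_cases hpq : p = q
      · subst hpq
        simp only [Bq_f1]
        by_cases hi : i = 0
        · subst hi; simp
        · simp [Pi.mulSingle_eq_of_ne hi]
      · rw [Bq_f2 _ _ _ hpq]
        have hne : ((q : ℕ) : ZMod (p : ℕ)) ≠ 0 := by
          rw [Ne, ZMod.natCast_eq_zero_iff]
          intro h2
          apply hpq
          have := (Nat.prime_dvd_prime_iff_eq p.2 q.2).1 h2
          exact Subtype.ext this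
        by_cases hi : i = 0
        · subst hi
          simp only [Int.cast_natCast, Int.cast_zero, Pi.mulSingle_eq_same, sub_zero, zero_sub,
            add_zero, neg_zero, sub_self, Int.cast_neg, Pi.mulSingle_eq_of_ne hne.symm, mul_one,
            inv_one, mul_inv_cancel, one_mul]
          simp [Pi.mulSingle_eq_of_ne hne.symm]
        · simp [Pi.mulSingle_eq_of_ne hi]
  · intro k
    have hne : (((q : ℕ) : ℤ)) ≠ 0 := by exact_mod_cast q.2.ne_zero
    simp only [mul_h, inv_h, mul_n, S_n, inv_n, S_h, Bq_h]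
    by_cases hk : k = 0
    · subst hk
      simp [Pi.mulSingle_eq_of_ne hne.symm]
    · simp [Pi.mulSingle_eq_of_ne hk]
  · simp

lemma gen (n : ℕ) (hn : n ≠ 0) (K : Subgroup (U A)) (hT : ∀ j : ℤ, ∀ x ∈ K, T j * x * (T j)⁻¹ ∈ K)
    (hS : ∀ a, S n 0 a ∈ K) :
    ∀ x ∈ GG A, x.n = 0 → (∀ p : Nat.Primes, (p : ℕ) ∣ n → x.f p = 1) → x ∈ K := by
  have g1 : ∀ (k : ℤ) (a : A), S n k a ∈ K := by
    intro k a
    have := hT k _ (hS a)
    rwa [T_conj_S, zero_add] at this
  have g2 : ∀ q : Nat.Primes, ¬ (q : ℕ) ∣ n → ∀ y, Bq q y ∈ K := by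
    intro q hq
    apply fill K hT q
    · intro b a h
      have h1 : S n 0 b * Bq q (Pi.mulSingle 0 a) * (S n 0 b)⁻¹ ∈ K :=
        K.mul_mem (K.mul_mem (hS b) h) (K.inv_mem (hS b))
      rw [conj_Bq] at h1
      convert h1 using 2
      funext i
      rw [S_f2 _ _ _ _ hq]
      by_cases hi : i = 0
      · subst hi; simp
      · simp [Pi.mulSingle_eq_of_ne hi]
    · obtain ⟨x, y, hxy⟩ := NC.ex (A := A)
      refine ⟨0, x * y * x⁻¹ * y⁻¹, ?_, ?_⟩
      · intro h
        apply hxy
        have h2 : x * y * x⁻¹ = y := mul_inv_eq_one.1 h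
        exact mul_inv_eq_iff_eq_mul.1 h2
      · rw [← comm_S n q hq]
        exact K.mul_mem (K.mul_mem (K.mul_mem (hS x) (g1 _ y)) (K.inv_mem (hS x)))
          (K.inv_mem (g1 _ y))
  have g3 := N_ind K n g2
  have main : ∀ J : Finset ℤ, ∀ x ∈ GG A, x.n = 0 →
      (∀ p : Nat.Primes, (p : ℕ) ∣ n → x.f p = 1) → (∀ k ∉ J, x.h k = 1) → x ∈ K := by
    intro J
    induction J using Finset.induction_on with
    | empty =>
      intro x hx h1 h2 h3
      exact g3 x hx h1 (by funext k; exact h3 k (by simp)) h2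
    | insert k J hk ih =>
      intro x hx h1 h2 h3
      have h5 : x = S n k (x.h k) * ((S n k (x.h k))⁻¹ * x) := by simp
      rw [h5]
      apply K.mul_mem (g1 _ _)
      apply ih
      · exact (GG A).mul_mem ((GG A).inv_mem (S_mem n hn _ _)) hx
      · simp [h1]
      · intro p hp
        funext i
        simp [S_f1 _ _ _ _ hp, h2 p hp]
      · intro j hj
        by_cases h : j = k
        · subst h; simp
        · simp [Pi.mulSingle_eq_of_ne h, h3 j (by simp [h, hj])]
  intro x hx h1 h2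
  obtain ⟨c, hc⟩ := hx.1
  apply main (Finset.Icc (-(c : ℤ)) c) x hx h1 h2
  intro k hk
  apply hc
  rw [Finset.mem_Icc] at hk
  by_contra h
  push Not at h
  exact hk (abs_le.1 h)

end Pool.Agent.Helper22.OR
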