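import Pool.Agent.Helper22.OR.O2

set_option linter.unusedSectionVars false
set_option linter.unusedVariables false

namespace Pool.Agent.Helper22.OR

open Filter

variable {A : Type} [Group A]

abbrev GT (A : Type) [Group A] : Type := ↥(GG A)

def sG (a : A) : GT A := ⟨S 1 0 a, S_mem 1 one_ne_zero 0 a⟩
def tG (k : ℤ) : GT A := ⟨T k, T_mem k⟩
def bG (q : Nat.Primes) (y : ZMod (q : ℕ) → A) : GT A := ⟨Bq q y, Bq_mem q y⟩

@[simp] lemma sG_val (a : A) : (sG a : GT A).1 = S 1 0 a := rfl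
@[simp] lemma tG_val (k : ℤ) : (tG k : GT A).1 = T k := rfl
@[simp] lemma bG_val (q : Nat.Primes) (y : ZMod (q : ℕ) → A) : (bG q y : GT A).1 = Bq q y := rfl

lemma tG_zpow (k : ℤ) : (tG k : GT A) = (tG 1) ^ k := by
  apply Subtype.ext
  rw [Subgroup.coe_zpow]
  exact T_zpow k

variable [IsSimpleGroup A] [NC A]

lemma gen' (n : ℕ) (hn : n ≠ 0) (K : Subgroup (GT A))
    (hT : ∀ j : ℤ, ∀ x ∈ K, tG j * x * (tG j)⁻¹ ∈ K)
    (hS : ∀ a, (⟨S n 0 a, S_mem n hn 0 a⟩ : GT A) ∈ K) :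
    ∀ x : GT A, x.1.n = 0 → (∀ p : Nat.Primes, (p : ℕ) ∣ n → x.1.f p = 1) → x ∈ K := by
  intro x h1 h2
  have := gen n hn (K.map (GG A).subtype) (by
    rintro j y ⟨z, hz, rfl⟩
    exact ⟨tG j * z * (tG j)⁻¹, hT j z hz, rfl⟩) (by
    intro a
    exact ⟨_, hS a, rfl⟩) x.1 x.2 h1 h2
  obtain ⟨z, hz, hzx⟩ := this
  have : z = x := Subtype.ext hzx
  rwa [this] at hz

lemma N_ind' (K : Subgroup (GT A)) (hK : ∀ (q : Nat.Primes) (y), bG q y ∈ K) :
    ∀ x : GT A, x.1.n = 0 → x.1.h = 1 → x ∈ K := by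
  intro x h1 h2
  have := N_ind (K.map (GG A).subtype) 1 (by
    intro q _ y
    exact ⟨_, hK q y, rfl⟩) x.1 x.2 h1 h2 (by
    intro p hp
    exact absurd (Nat.dvd_one.1 hp) p.2.one_lt.ne')
  obtain ⟨z, hz, hzx⟩ := this
  have : z = x := Subtype.ext hzx
  rwa [this] at hz

lemma not_dvd_one (p : Nat.Primes) : ¬ (p : ℕ) ∣ 1 := fun hp =>
  absurd (Nat.dvd_one.1 hp) p.2.one_lt.ne'

/-- a subgroup containing all `sG a` and `tG 1` is everything -/
lemma gen_top (K : Subgroup (GT A)) (hs : ∀ a, sG a ∈ K) (ht : tG 1 ∈ K) (x : GT A) : x ∈ K := by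
  have htk : ∀ k : ℤ, tG k ∈ K := by
    intro k
    rw [tG_zpow]
    exact K.zpow_mem ht k
  have h1 : x * (tG x.1.n)⁻¹ ∈ K := by
    apply gen' 1 one_ne_zero K
    · intro j y hy
      exact K.mul_mem (K.mul_mem (htk j) hy) (K.inv_mem (htk j))
    · exact hs
    · show x.1.n + -x.1.n = 0
      ring
    · intro p hp
      exact absurd hp (not_dvd_one p)
  have h2 := K.mul_mem h1 (htk x.1.n)
  simpa using h2

/-- two homomorphisms to a group which agree on `sG a` and `tG 1` are equal -/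
lemma hom_ext {H : Type} [Group H] (α β : GT A →* H) (hs : ∀ a, α (sG a) = β (sG a))
    (ht : α (tG 1) = β (tG 1)) : α = β := by
  ext x
  exact gen_top (MonoidHom.eqLocus α β) hs ht x

variable [Finite A]

lemma fg : Group.FG (GT A) := by
  rw [Group.fg_iff]
  refine ⟨Set.range sG ∪ {tG 1}, ?_, (Set.finite_range _).union (Set.finite_singleton _)⟩
  rw [eq_top_iff]
  intro x _
  apply gen_top
  · intro a
    exact Subgroup.subset_closure (Or.inl ⟨a, rfl⟩)
  · exact Subgroup.subset_closure (Or.inr rfl)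

/-- the definition in the problem file -/
def RF (G : Type) [Group G] : Prop :=
  ∀ g : G, g ≠ 1 → ∃ (H : Type) (_ : Group H) (_ : Finite H) (φ : G →* H), φ g ≠ 1

/-- action on `ZMod p × A` -/
@[reducible] def act (p : Nat.Primes) : MulAction (U A) (ZMod (p : ℕ) × A) where
  smul x v := (v.1 + (x.n : ZMod (p : ℕ)), x.f p (v.1 + (x.n : ZMod (p : ℕ))) * v.2)
  one_smul := by
    rintro ⟨i, a⟩
    show ((i + ((0 : ℤ) : ZMod (p : ℕ))), (1 : A) * a) = (i, a)
    simp
  mul_smul := by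
    rintro x y ⟨i, a⟩
    show (i + ((x.n + y.n : ℤ) : ZMod (p : ℕ)),
      (x.f p (i + ((x.n + y.n : ℤ) : ZMod (p : ℕ))) *
        y.f p (i + ((x.n + y.n : ℤ) : ZMod (p : ℕ)) - (x.n : ZMod (p : ℕ)))) * a)
      = (i + (y.n : ZMod (p : ℕ)) + (x.n : ZMod (p : ℕ)),
        x.f p (i + (y.n : ZMod (p : ℕ)) + (x.n : ZMod (p : ℕ))) *
          (y.f p (i + (y.n : ZMod (p : ℕ))) * a))
    have e1 : i + ((x.n + y.n : ℤ) : ZMod (p : ℕ))
        = i + (y.n : ZMod (p : ℕ)) + (x.n : ZMod (p : ℕ)) := by push_cast; ring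
    rw [e1, mul_assoc, add_sub_cancel_right]

lemma exists_large (N : ℕ) (F : Finset Nat.Primes) : ∃ p : Nat.Primes, N < (p : ℕ) ∧ p ∉ F := by
  have h1 := ev_gt N
  have h2 : ∀ᶠ p : Nat.Primes in cofinite, p ∉ F := by
    rw [Filter.eventually_cofinite]
    simp
  exact (h1.and h2).exists

lemma cast_eq_zero (n : ℤ) (p : Nat.Primes) (hp : n.natAbs < (p : ℕ))
    (h : (n : ZMod (p : ℕ)) = 0) : n = 0 := by
  rw [ZMod.intCast_zmod_eq_zero_iff_dvd] at h
  exact Int.eq_zero_of_abs_lt_dvd h (by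
    rw [Int.abs_eq_natAbs]
    exact_mod_cast hp)

lemma rf : RF (GT A) := by
  intro x hx
  have key : ∃ p : Nat.Primes, ∃ v : ZMod (p : ℕ) × A, (act p).smul x.1 v ≠ v := by
    by_contra hcon
    push Not at hcon
    apply hx
    have hcon' : ∀ (p : Nat.Primes) (i : ZMod (p : ℕ)), (x.1.n : ZMod (p : ℕ)) = 0 ∧
        x.1.f p i = 1 := by
      intro p i
      have h1 := hcon p (i - (x.1.n : ZMod (p : ℕ)), 1)
      have h2 := congrArg Prod.fst h1
      have h3 := congrArg Prod.snd h1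
      change i - (x.1.n : ZMod (p : ℕ)) + (x.1.n : ZMod (p : ℕ)) = i - (x.1.n : ZMod (p : ℕ)) at h2
      change x.1.f p (i - (x.1.n : ZMod (p : ℕ)) + (x.1.n : ZMod (p : ℕ))) * 1 = 1 at h3
      rw [sub_add_cancel] at h2 h3
      rw [mul_one] at h3
      refine ⟨?_, h3⟩
      have h4 := sub_eq_self.1 h2.symm
      exact h4
    have hn : x.1.n = 0 := by
      obtain ⟨p, hp, _⟩ := exists_large (x.1.n).natAbs ∅
      exact cast_eq_zero _ p hp (hcon' p 0).1
    have hf : ∀ p, x.1.f p = 1 := by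
      intro p; funext i; exact (hcon' p i).2
    have hh : x.1.h = 1 := h_of_f x.2 (Eventually.of_forall hf)
    apply Subtype.ext
    apply ext3
    · intro p i; rw [hf p]; rfl
    · intro k; rw [hh]; rfl
    · exact hn
  obtain ⟨p, v, hv⟩ := key
  have : NeZero (p : ℕ) := ⟨p.2.ne_zero⟩
  letI := act (A := A) p
  refine ⟨Equiv.Perm (ZMod (p : ℕ) × A), inferInstance, inferInstance,
    (MulAction.toPermHom (U A) (ZMod (p : ℕ) × A)).comp (GG A).subtype, ?_⟩
  intro h
  apply hv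
  have := congrArg (fun e : Equiv.Perm (ZMod (p : ℕ) × A) => e v) h
  exact this

/-! ### the locally inner automorphisms -/

def tau0 (q : Nat.Primes) (k : ℤ) (x : U A) : U A :=
  ⟨fun p i => if p = q then x.f p (i - (k : ZMod (p : ℕ))) else x.f p i, x.h, x.n⟩

lemma tau0_mul (q : Nat.Primes) (k : ℤ) (x y : U A) :
    tau0 q k (x * y) = tau0 q k x * tau0 q k y := by
  apply ext3
  · intro p i
    simp only [tau0, mul_f]
    by_cases h : p = q
    · simp only [h, if_true]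
      rw [sub_right_comm]
    · simp [h]
  · intro j; rfl
  · rfl

lemma tau0_mem (q : Nat.Primes) (k : ℤ) (x : U A) (hx : x ∈ GG A) : tau0 q k x ∈ GG A := by
  refine ⟨hx.1, ?_⟩
  filter_upwards [hx.2, ev_gt (q : ℕ)] with p h1 h2 i
  have : p ≠ q := by rintro rfl; exact lt_irrefl _ h2
  simp only [tau0, this, if_false]
  exact h1 i

lemma tau0_inv (q : Nat.Primes) (k : ℤ) (x : U A) : tau0 q (-k) (tau0 q k x) = x := by
  apply ext3
  · intro p i
    simp only [tau0]
    by_cases h : p = q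
    · simp [h]
    · simp [h]
  · intro j; rfl
  · rfl

def tau (q : Nat.Primes) (k : ℤ) : MulAut (GT A) where
  toFun x := ⟨tau0 q k x.1, tau0_mem q k x.1 x.2⟩
  invFun x := ⟨tau0 q (-k) x.1, tau0_mem q (-k) x.1 x.2⟩
  left_inv x := Subtype.ext (tau0_inv q k x.1)
  right_inv x := Subtype.ext (by
    have := tau0_inv q (-k) x.1
    rwa [neg_neg] at this)
  map_mul' x y := Subtype.ext (tau0_mul q k x.1 y.1)

lemma tau_val (q : Nat.Primes) (k : ℤ) (x : GT A) : (tau q k x).1 = tau0 q k x.1 := rfl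

lemma tau_other (q : Nat.Primes) (k : ℤ) (p : Nat.Primes) (hp : p ≠ q) (y : ZMod (p : ℕ) → A) :
    tau q k (bG p y) = bG p y := by
  apply Subtype.ext
  rw [tau_val]
  apply ext3
  · intro r i
    simp only [tau0, bG_val]
    by_cases h : r = q
    · subst h
      simp [Bq_f2 _ _ _ hp.symm]
    · simp [h]
  · intro j; rfl
  · rfl

lemma exists_ne_one : ∃ a : A, a ≠ 1 := by
  obtain ⟨a, b, h⟩ := NC.ex (A := A)
  by_contra hcon
  push Not at hcon
  exact h (by rw [hcon a, hcon b])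

/-- `τ_q` is not an inner automorphism composed with something trivial on the other coordinates -/
lemma tau_ne (q r : Nat.Primes) (hr : r ≠ q) (θ : MulAut (GT A))
    (hθ : ∀ p, p ≠ r → ∀ y, θ (bG p y) = bG p y) (g : GT A)
    (h : ∀ x, tau q 1 x = g * θ x * g⁻¹) : False := by
  obtain ⟨a, ha⟩ := exists_ne_one (A := A)
  have hn : g.1.n = 0 := by
    obtain ⟨p, hp, hpF⟩ := exists_large (g.1.n).natAbs {q, r}
    simp only [Finset.mem_insert, Finset.mem_singleton, not_or] at hpF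
    apply cast_eq_zero _ p hp
    have h1 := h (bG p (Pi.mulSingle 0 a))
    rw [tau_other _ _ _ hpF.1, hθ p hpF.2] at h1
    have h2 := congrArg (fun x : GT A => x.1.f p 0) h1
    change (Bq p (Pi.mulSingle 0 a)).f p 0 = (g.1 * Bq p (Pi.mulSingle 0 a) * g.1⁻¹).f p 0 at h2
    rw [conj_Bq, Bq_f1, Bq_f1] at h2
    simp only [Pi.mulSingle_eq_same, zero_sub] at h2
    by_contra hne
    rw [Pi.mulSingle_eq_of_ne (by simpa using hne)] at h2
    simp at h2
    exact ha h2
  have h1 := h (bG q (Pi.mulSingle 0 a))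
  rw [hθ q hr.symm] at h1
  have h2 := congrArg (fun x : GT A => x.1.f q 1) h1
  change (tau0 q 1 (Bq q (Pi.mulSingle 0 a))).f q 1
    = (g.1 * Bq q (Pi.mulSingle 0 a) * g.1⁻¹).f q 1 at h2
  rw [conj_Bq, Bq_f1, hn] at h2
  simp only [tau0, Bq_f1, if_true, Int.cast_one, sub_self, Pi.mulSingle_eq_same, Int.cast_zero,
    sub_zero] at h2
  have h10 : (1 : ZMod (q : ℕ)) ≠ 0 := by
    have : Fact (1 < (q : ℕ)) := ⟨q.2.one_lt⟩
    exact one_ne_zero
  rw [Pi.mulSingle_eq_of_ne h10] at h2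
  simp at h2
  exact ha h2

/-- finite index normal subgroups contain all elements supported away from finitely many primes -/
lemma deep (K : Subgroup (GT A)) (hK : K.Normal) (n : ℕ) (hn : n ≠ 0)
    (hTn : tG (n : ℤ) ∈ K) :
    ∀ x : GT A, x.1.n = 0 → (∀ p : Nat.Primes, (p : ℕ) ∣ n → x.1.f p = 1) → x ∈ K := by
  apply gen' n hn K
  · intro j x hx
    exact hK.conj_mem x hx _
  let H : Subgroup A :=
    { carrier := {a | (⟨S n 0 a, S_mem n hn 0 a⟩ : GT A) ∈ K}
      one_mem' := by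
        show (⟨S n 0 (1 : A), S_mem n hn 0 1⟩ : GT A) ∈ K
        have : (⟨S n 0 (1 : A), S_mem n hn 0 1⟩ : GT A) = 1 := Subtype.ext (S_one n 0)
        rw [this]; exact K.one_mem
      mul_mem' := by
        intro a b ha hb
        have : (⟨S n 0 (a * b), S_mem n hn 0 (a * b)⟩ : GT A)
          = ⟨S n 0 a, S_mem n hn 0 a⟩ * ⟨S n 0 b, S_mem n hn 0 b⟩ := Subtype.ext (S_mul n 0 a b)
        show (⟨S n 0 (a * b), S_mem n hn 0 (a * b)⟩ : GT A) ∈ K
        rw [this]; exact K.mul_mem ha hb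
      inv_mem' := by
        intro a ha
        have : (⟨S n 0 (a⁻¹), S_mem n hn 0 (a⁻¹)⟩ : GT A)
          = (⟨S n 0 a, S_mem n hn 0 a⟩)⁻¹ := Subtype.ext (S_inv n 0 a)
        show (⟨S n 0 (a⁻¹), S_mem n hn 0 (a⁻¹)⟩ : GT A) ∈ K
        rw [this]; exact K.inv_mem ha }
  have hH : H = ⊤ := by
    apply normal_top
    · intro b a ha
      show (⟨S n 0 (b * a * b⁻¹), S_mem n hn 0 _⟩ : GT A) ∈ K
      have h1 := hK.conj_mem _ ha (sG b)
      convert h1 using 1
      apply Subtype.ext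
      show S n 0 (b * a * b⁻¹) = S 1 0 b * S n 0 a * (S 1 0 b)⁻¹
      apply ext3
      · intro p i
        rw [conj_f _ _ (by simp), S_f0]
        by_cases h : (p : ℕ) ∣ n
        · simp [S_f1 _ _ _ _ h]
        · simp only [S_f2 _ _ _ _ h, S_n, Int.cast_zero, sub_zero]
          by_cases hi : i = 0
          · subst hi; simp
          · simp [Pi.mulSingle_eq_of_ne hi]
      · intro k
        rw [conj_h _ _ (by simp)]
        simp only [S_h, S_n, sub_zero]
        by_cases hi : k = 0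
        · subst hi; simp
        · simp [Pi.mulSingle_eq_of_ne hi]
      · simp
    · obtain ⟨a, b, hab⟩ := NC.ex (A := A)
      refine ⟨a * b * a⁻¹ * b⁻¹, ?_, ?_⟩
      · show (⟨S n 0 (a * b * a⁻¹ * b⁻¹), S_mem n hn 0 _⟩ : GT A) ∈ K
        rw [← QuotientGroup.eq_one_iff]
        have e1 : (sG (a * b * a⁻¹ * b⁻¹) : GT A)
            = sG a * (tG n * sG b * (tG n)⁻¹) * (sG a)⁻¹ * (tG n * sG b * (tG n)⁻¹)⁻¹
              * ⟨S n 0 (a * b * a⁻¹ * b⁻¹), S_mem n hn 0 _⟩ := by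
          apply Subtype.ext
          show S 1 0 (a * b * a⁻¹ * b⁻¹) = S 1 0 a * (T n * S 1 0 b * (T n)⁻¹) * (S 1 0 a)⁻¹
            * (T n * S 1 0 b * (T n)⁻¹)⁻¹ * S n 0 (a * b * a⁻¹ * b⁻¹)
          rw [T_conj_S, zero_add]
          apply ext3
          · intro p i
            simp only [mul_f, inv_f, mul_n, S_n, inv_n, S_f0]
            by_cases h : (p : ℕ) ∣ n
            · have h0 : (n : ZMod (p : ℕ)) = 0 := by
                rw [ZMod.natCast_eq_zero_iff]; exact h
              rw [S_f1 _ _ _ _ h]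
              by_cases hi : i = 0
              · subst hi; simp [h0]
              · simp [h0, Pi.mulSingle_eq_of_ne hi]
            · have h0 : (n : ZMod (p : ℕ)) ≠ 0 := by
                rw [Ne, ZMod.natCast_eq_zero_iff]; exact h
              rw [S_f2 _ _ _ _ h]
              by_cases hi : i = 0
              · subst hi
                have e2 : (Pi.mulSingle ((n : ℤ) : ZMod (p : ℕ)) b : ZMod (p : ℕ) → A) 0 = 1 :=
                  Pi.mulSingle_eq_of_ne (by push_cast; exact h0.symm) _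
                simp only [Int.cast_zero, neg_zero, add_zero, sub_zero, e2,
                  Pi.mulSingle_eq_same, mul_one, inv_one, mul_inv_cancel, one_mul]
              · simp [Pi.mulSingle_eq_of_ne hi]
          · intro k
            have h0 : (n : ℤ) ≠ 0 := by exact_mod_cast hn
            simp only [mul_h, inv_h, mul_n, S_n, inv_n, S_h]
            by_cases hk : k = 0
            · subst hk
              simp [Pi.mulSingle_eq_of_ne h0.symm]
            · simp [Pi.mulSingle_eq_of_ne hk]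
          · simp
        have e3 : ((tG (n : ℤ) : GT A) : GT A ⧸ K) = 1 := by
          rw [QuotientGroup.eq_one_iff]; exact hTn
        have e4 := congrArg (fun x : GT A => (x : GT A ⧸ K)) e1
        have e5 : (sG (a * b * a⁻¹ * b⁻¹) : GT A) = sG a * sG b * (sG a)⁻¹ * (sG b)⁻¹ := by
          apply Subtype.ext
          show S 1 0 (a * b * a⁻¹ * b⁻¹) = S 1 0 a * S 1 0 b * (S 1 0 a)⁻¹ * (S 1 0 b)⁻¹
          rw [S_mul, S_mul, S_mul, S_inv, S_inv]
        rw [e5] at e4
        simp only [QuotientGroup.mk_mul, QuotientGroup.mk_inv, e3, one_mul, inv_one, mul_one] at e4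
        have e6 := left_eq_mul.1 e4
        exact e6
      · intro h
        apply hab
        have h2 : a * b * a⁻¹ = b := mul_inv_eq_one.1 h
        exact mul_inv_eq_iff_eq_mul.1 h2
  intro a
  have : a ∈ H := by rw [hH]; trivial
  exact this

lemma crt (q : Nat.Primes) (n : ℕ) (hn : n ≠ 0) : ∃ a : ℤ, (a : ZMod (q : ℕ)) = 1 ∧
    ∀ p : Nat.Primes, (p : ℕ) ∣ n → p ≠ q → (a : ZMod (p : ℕ)) = 0 := by
  obtain ⟨v, n', h1, h2⟩ := Nat.exists_eq_pow_mul_and_not_dvd hn (q : ℕ) q.2.one_lt.ne'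
  have hc : Nat.Coprime (q : ℕ) n' := (Nat.Prime.coprime_iff_not_dvd q.2).2 h1
  obtain ⟨k, hk1, hk2⟩ := Nat.chineseRemainder hc 1 0
  refine ⟨(k : ℤ), ?_, ?_⟩
  · push_cast
    have := (ZMod.natCast_eq_natCast_iff k 1 (q : ℕ)).2 hk1
    simpa using this
  · intro p hp hpq
    push_cast
    rw [ZMod.natCast_eq_zero_iff]
    have h3 : (p : ℕ) ∣ n' := by
      rw [h2] at hp
      rcases (Nat.Prime.dvd_mul p.2).1 hp with h | h
      · exfalso
        apply hpq
        have := (Nat.prime_dvd_prime_iff_eq p.2 q.2).1 (p.2.dvd_of_dvd_pow h)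
        exact Subtype.ext this
      · exact h
    exact h3.trans ((Nat.modEq_zero_iff_dvd).1 hk2)

lemma locally_inner (q : Nat.Primes) (K : Subgroup (GT A)) (hK : K.Normal) (hKf : K.FiniteIndex) :
    ∃ g : GT A, ∀ x : GT A, tau q 1 x * (g * x * g⁻¹)⁻¹ ∈ K := by
  have hn : K.index ≠ 0 := hKf.index_ne_zero
  have hTn : tG (K.index : ℤ) ∈ K := by
    rw [tG_zpow, zpow_natCast]
    exact K.pow_index_mem (tG 1)
  have hdeep := deep K hK K.index hn hTn
  obtain ⟨a, ha1, ha2⟩ := crt q K.index hn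
  refine ⟨tG a, fun x => hdeep _ ?_ ?_⟩
  · show x.1.n + -(a + x.1.n + -a) = 0
    ring
  · intro p hp
    funext i
    show (tau0 q 1 x.1 * (T a * x.1 * (T a)⁻¹)⁻¹).f p i = 1
    simp only [mul_f, inv_f, mul_n, inv_n, T_n, T_f, tau0, Pi.one_apply, one_mul, inv_one, mul_one]
    have e1 : i - (x.1.n : ZMod (p : ℕ)) + ((a + x.1.n + -a : ℤ) : ZMod (p : ℕ))
        - (a : ZMod (p : ℕ)) = i - (a : ZMod (p : ℕ)) := by push_cast; ring
    rw [e1]
    by_cases h : p = q
    · subst h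
      simp [ha1]
    · simp [h, ha2 p hp h]

end Pool.Agent.Helper22.OR
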