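import Pool.Agent.Helper22.OR.O3

set_option linter.unusedSectionVars false
set_option linter.unusedVariables false

namespace Pool.Agent.Helper22.OR

open Filter

variable {A : Type} [Group A]

/-- the exponent of the shift -/
def nHom : GT A →* Multiplicative ℤ where
  toFun x := Multiplicative.ofAdd x.1.n
  map_one' := rfl
  map_mul' _ _ := rfl

lemma pow_n (x : GT A) (k : ℕ) : (x ^ k).1.n = k * x.1.n := by
  have h := map_pow (nHom (A := A)) x k
  have h2 := congrArg Multiplicative.toAdd h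
  rw [toAdd_pow] at h2
  simpa [nHom] using h2

def bHom (q : Nat.Primes) : (ZMod (q : ℕ) → A) →* GT A where
  toFun := bG q
  map_one' := Subtype.ext (Bq_one q)
  map_mul' y z := Subtype.ext (Bq_mul q y z)

lemma bG_mul (q : Nat.Primes) (y z : ZMod (q : ℕ) → A) : bG q (y * z) = bG q y * bG q z :=
  (bHom q).map_mul y z
lemma bG_inv (q : Nat.Primes) (y : ZMod (q : ℕ) → A) : bG q (y⁻¹) = (bG q y)⁻¹ :=
  (bHom q).map_inv y
lemma bG_one (q : Nat.Primes) : bG q (1 : ZMod (q : ℕ) → A) = 1 := (bHom q).map_one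

lemma bG_inj {q : Nat.Primes} {y z : ZMod (q : ℕ) → A} (h : bG q y = bG q z) : y = z :=
  Bq_inj (congrArg Subtype.val h)

lemma conj_bG (x : GT A) (q : Nat.Primes) (y : ZMod (q : ℕ) → A) :
    x * bG q y * x⁻¹
      = bG q (fun i => x.1.f q i * y (i - (x.1.n : ZMod (q : ℕ))) * (x.1.f q i)⁻¹) :=
  Subtype.ext (conj_Bq x.1 q y)

/-- elements with trivial exponent and trivial limit -/
def Nsub (A : Type) [Group A] : Subgroup (GT A) where
  carrier := {x | x.1.n = 0 ∧ x.1.h = 1}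
  one_mem' := ⟨rfl, rfl⟩
  mul_mem' := by
    rintro x y ⟨h1, h2⟩ ⟨h3, h4⟩
    refine ⟨by show x.1.n + y.1.n = 0; rw [h1, h3]; rfl, ?_⟩
    funext k
    show x.1.h k * y.1.h (k - x.1.n) = 1
    rw [h2, h4]; simp
  inv_mem' := by
    rintro x ⟨h1, h2⟩
    refine ⟨by show -x.1.n = 0; rw [h1]; rfl, ?_⟩
    funext k
    show (x.1.h (k + x.1.n))⁻¹ = 1
    rw [h2]; simp

lemma mem_Nsub (x : GT A) : x ∈ Nsub A ↔ x.1.n = 0 ∧ x.1.h = 1 := Iff.rfl

lemma Nsub_iff (x y : GT A) : x * y⁻¹ ∈ Nsub A ↔ x.1.n = y.1.n ∧ x.1.h = y.1.h := by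
  rw [mem_Nsub]
  have e1 : (x * y⁻¹).1.n = x.1.n - y.1.n := by
    show x.1.n + -y.1.n = _
    ring
  rw [e1]
  constructor
  · rintro ⟨h1, h2⟩
    have h3 : x.1.n = y.1.n := by omega
    refine ⟨h3, ?_⟩
    funext k
    have h4 := congrFun h2 k
    change x.1.h k * (y.1.h (k - x.1.n + y.1.n))⁻¹ = 1 at h4
    rw [h3, sub_add_cancel] at h4
    exact mul_inv_eq_one.1 h4
  · rintro ⟨h1, h2⟩
    refine ⟨by omega, ?_⟩
    funext k
    show x.1.h k * (y.1.h (k - x.1.n + y.1.n))⁻¹ = 1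
    rw [h1, h2, sub_add_cancel, mul_inv_cancel]

instance : (Nsub A).Normal := by
  constructor
  intro x hx g
  rw [mem_Nsub] at hx ⊢
  refine ⟨conj_n g.1 x.1 hx.1, ?_⟩
  funext k
  show (g.1 * x.1 * g.1⁻¹).h k = 1
  rw [conj_h g.1 x.1 hx.1, hx.2]; simp

variable [IsSimpleGroup A] [NC A] [Finite A]

def sHom : A →* GT A where
  toFun := sG
  map_one' := Subtype.ext (S_one 1 0)
  map_mul' a b := Subtype.ext (S_mul 1 0 a b)

lemma aut_n (φ : MulAut (GT A)) (x : GT A) (h : x.1.n = 0) : (φ x).1.n = 0 := by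
  have h1 := gen' 1 one_ne_zero ((nHom.comp φ.toMonoidHom).ker) (by
      intro j y hy
      exact (MonoidHom.normal_ker _).conj_mem y hy _) (by
      intro a
      rw [MonoidHom.mem_ker]
      have h2 : (φ (sG a)) ^ (Nat.card A) = 1 := by
        rw [← map_pow]
        have : (sG a) ^ (Nat.card A) = 1 := by
          show (sHom a) ^ (Nat.card A) = 1
          rw [← map_pow, pow_card_eq_one', map_one]
        rw [this, map_one]
      have h3 := pow_n (φ (sG a)) (Nat.card A)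
      rw [h2] at h3
      have h4 : (0 : ℤ) = (Nat.card A : ℤ) * (φ (sG a)).1.n := h3
      have h5 : (Nat.card A : ℤ) ≠ 0 := by exact_mod_cast Nat.card_pos.ne'
      have h6 : (φ (sG a)).1.n = 0 := by
        rcases mul_eq_zero.1 h4.symm with h | h
        · exact absurd h h5
        · exact h
      show Multiplicative.ofAdd (φ (sG a)).1.n = 1
      rw [h6]; rfl) x h (fun p hp => absurd hp (not_dvd_one p))
  rw [MonoidHom.mem_ker] at h1
  exact Multiplicative.ofAdd.injective h1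

lemma aut_sign (φ : MulAut (GT A)) (x : GT A) : (φ x).1.n = x.1.n * (φ (tG 1)).1.n := by
  set ε := (φ (tG 1)).1.n with hε
  have key : nHom.comp φ.toMonoidHom = (zpowGroupHom ε).comp nHom := by
    apply hom_ext
    · intro a
      show Multiplicative.ofAdd (φ (sG a)).1.n = (Multiplicative.ofAdd (0 : ℤ)) ^ ε
      rw [aut_n φ (sG a) rfl]
      simp
    · show Multiplicative.ofAdd (φ (tG 1)).1.n = (Multiplicative.ofAdd (1 : ℤ)) ^ ε
      rw [← hε, ← ofAdd_zsmul]
      simp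
  have h1 := DFunLike.congr_fun key x
  change Multiplicative.ofAdd (φ x).1.n = (Multiplicative.ofAdd x.1.n) ^ ε at h1
  rw [← ofAdd_zsmul] at h1
  have h2 := Multiplicative.ofAdd.injective h1
  rw [h2, smul_eq_mul, mul_comm]

lemma aut_pm (φ : MulAut (GT A)) : (φ (tG 1)).1.n = 1 ∨ (φ (tG 1)).1.n = -1 := by
  have h1 := aut_sign φ (φ.symm (tG 1))
  have h2 : φ (φ.symm (tG 1)) = tG 1 := φ.apply_symm_apply _
  rw [h2] at h1
  change (1 : ℤ) = _ at h1
  exact Int.isUnit_iff.1 (IsUnit.of_mul_eq_one ((φ.symm (tG 1)).1.n) (by rw [mul_comm]; exact h1.symm))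

lemma min_normal (L : Subgroup (GT A)) (hN : L.Normal) (hf : Finite L) (hne : L ≠ ⊥) :
    ∃ p, ∀ y, bG p y ∈ L := by
  obtain ⟨⟨x, hxL⟩, hx1'⟩ := Subgroup.ne_bot_iff_exists_ne_one.1 hne
  have hx1 : x ≠ 1 := fun h => hx1' (Subtype.ext h)
  have hn : x.1.n = 0 := by
    have h1 := isOfFinOrder_of_finite (⟨x, hxL⟩ : L)
    rw [isOfFinOrder_iff_pow_eq_one] at h1
    obtain ⟨k, hk, hk2⟩ := h1
    have h2 : x ^ k = 1 := congrArg Subtype.val hk2
    have h3 := pow_n x k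
    rw [h2] at h3
    have h4 : (0 : ℤ) = (k : ℤ) * x.1.n := h3
    rcases mul_eq_zero.1 h4.symm with h | h
    · exfalso
      have : k = 0 := by exact_mod_cast h
      omega
    · exact h
  have hf' : ∃ p i, x.1.f p i ≠ 1 := by
    by_contra hcon
    push Not at hcon
    apply hx1
    have hh : x.1.h = 1 := h_of_f x.2 (Eventually.of_forall fun p => by
      funext i; exact hcon p i)
    apply Subtype.ext
    apply ext3
    · intro p i; rw [hcon p i]; rfl
    · intro k; rw [hh]; rfl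
    · exact hn
  obtain ⟨p, i, hpi⟩ := hf'
  obtain ⟨a, ha⟩ := exists_not_comm _ hpi
  refine ⟨p, ?_⟩
  have h1 : bG p (Pi.mulSingle i (x.1.f p i * a * (x.1.f p i)⁻¹ * a⁻¹)) ∈ L := by
    have h2 : x * (bG p (Pi.mulSingle i a) * x⁻¹ * (bG p (Pi.mulSingle i a))⁻¹) ∈ L :=
      L.mul_mem hxL (hN.conj_mem _ (L.inv_mem hxL) _)
    have h3 : x * (bG p (Pi.mulSingle i a) * x⁻¹ * (bG p (Pi.mulSingle i a))⁻¹)
        = (x * bG p (Pi.mulSingle i a) * x⁻¹) * (bG p (Pi.mulSingle i a))⁻¹ := by group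
    rw [h3, conj_bG, ← bG_inv, ← bG_mul, hn] at h2
    convert h2 using 2
    funext j
    simp only [Int.cast_zero, sub_zero, Pi.mul_apply, Pi.inv_apply]
    by_cases hj : j = i
    · subst hj; simp
    · simp [Pi.mulSingle_eq_of_ne hj]
  intro y
  have h2 := fill (L.map (GG A).subtype) (by
    rintro j _ ⟨z, hz, rfl⟩
    exact ⟨tG j * z * (tG j)⁻¹, hN.conj_mem z hz _, rfl⟩) p (by
    rintro b c ⟨z, hz, hz2⟩
    have hz3 : z = bG p (Pi.mulSingle 0 c) := Subtype.ext hz2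
    subst hz3
    have h5 := hN.conj_mem _ hz (sG b)
    rw [conj_bG] at h5
    refine ⟨_, h5, ?_⟩
    show Bq p _ = Bq p _
    congr 1
    funext j
    simp only [sG_val, S_f0, S_n, Int.cast_zero, sub_zero]
    by_cases hj : j = 0
    · subst hj; simp
    · simp [Pi.mulSingle_eq_of_ne hj]) ⟨i, _, ha, ⟨_, h1, rfl⟩⟩ y
  obtain ⟨z, hz, hz2⟩ := h2
  have hz3 : z = bG p y := Subtype.ext hz2
  rwa [hz3] at hz

lemma bG_range_normal (q : Nat.Primes) : ((bHom (A := A) q).range).Normal := by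
  constructor
  rintro _ ⟨y, rfl⟩ g
  show g * bG q y * g⁻¹ ∈ _
  rw [conj_bG]
  exact ⟨_, rfl⟩

lemma bG_eq {q r : Nat.Primes} {y : ZMod (q : ℕ) → A} {z : ZMod (r : ℕ) → A} (hy : y ≠ 1)
    (h : bG q y = bG r z) : q = r := by
  by_contra hne
  apply hy
  have h2 := congrArg (fun x : GT A => x.1.f q) h
  change (Bq q y).f q = (Bq r z).f q at h2
  rw [Bq_f1, Bq_f2 _ _ _ hne] at h2
  exact h2

lemma exists_fun_ne_one (q : Nat.Primes) : ∃ y : ZMod (q : ℕ) → A, y ≠ 1 := by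
  obtain ⟨a, ha⟩ := exists_ne_one (A := A)
  exact ⟨fun _ => a, fun h => ha (congrFun h 0)⟩

lemma aut_B1 (φ : MulAut (GT A)) (q : Nat.Primes) :
    ∃ p : Nat.Primes, ∀ y : ZMod (p : ℕ) → A, ∃ z : ZMod (q : ℕ) → A, bG p y = φ (bG q z) := by
  have h1 := min_normal (((bHom (A := A) q).range).map φ.toMonoidHom)
    ((bG_range_normal q).map _ φ.surjective) (by
      have : NeZero (q : ℕ) := ⟨q.2.ne_zero⟩
      have h4 : ((((bHom (A := A) q).range).map φ.toMonoidHom : Subgroup (GT A)) :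
        Set (GT A)).Finite := by
        rw [Subgroup.coe_map, MonoidHom.coe_range]
        exact (Set.finite_range _).image _
      exact h4.to_subtype) (by
      intro h
      obtain ⟨y, hy⟩ := exists_fun_ne_one (A := A) q
      have h3 : φ (bG q y) ∈ ((bHom (A := A) q).range).map φ.toMonoidHom :=
        ⟨_, ⟨y, rfl⟩, rfl⟩
      rw [h, Subgroup.mem_bot] at h3
      have h5 : φ (bG q y) = φ 1 := by rw [h3, map_one]
      have h6 := φ.injective h5
      rw [← bG_one q] at h6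
      exact hy (bG_inj h6))
  obtain ⟨p, hp⟩ := h1
  refine ⟨p, fun y => ?_⟩
  obtain ⟨_, ⟨z, rfl⟩, hz⟩ := hp y
  exact ⟨z, hz.symm⟩

lemma aut_B (φ : MulAut (GT A)) (q : Nat.Primes) (y : ZMod (q : ℕ) → A) :
    ∃ z : ZMod (q : ℕ) → A, φ (bG q y) = bG q z := by
  obtain ⟨p, hp⟩ := aut_B1 φ q
  obtain ⟨r, hr⟩ := aut_B1 φ.symm p
  -- `bG r y = φ.symm (bG p z)`, `bG p z = φ (bG q w)` hence `bG r y = bG q w`
  have hrq : r = q := by
    obtain ⟨y, hy⟩ := exists_fun_ne_one (A := A) r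
    obtain ⟨z, hz⟩ := hr y
    obtain ⟨w, hw⟩ := hp z
    rw [hw, MulEquiv.symm_apply_apply] at hz
    exact bG_eq hy hz
  subst hrq
  have h1 : ∀ y : ZMod (r : ℕ) → A, ∃ z : ZMod (p : ℕ) → A, φ (bG r y) = bG p z := by
    intro y
    obtain ⟨z, hz⟩ := hr y
    exact ⟨z, by rw [hz, MulEquiv.apply_symm_apply]⟩
  choose F hF using h1
  choose G hG using hp
  have hFi : Function.Injective F := by
    intro y z h
    have : φ (bG r y) = φ (bG r z) := by rw [hF, hF, h]
    exact bG_inj (φ.injective this)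
  have hGi : Function.Injective G := by
    intro y z h
    have : bG p y = bG p z := by rw [hG, hG, h]
    exact bG_inj this
  have hpz : NeZero (p : ℕ) := ⟨p.2.ne_zero⟩
  have hrz : NeZero (r : ℕ) := ⟨r.2.ne_zero⟩
  have c1 := Nat.card_le_card_of_injective F hFi
  have c2 := Nat.card_le_card_of_injective G hGi
  rw [Nat.card_fun, Nat.card_fun, Nat.card_zmod, Nat.card_zmod] at c1 c2
  have hA : 1 < Nat.card A := by
    rw [Finite.one_lt_card_iff_nontrivial]
    obtain ⟨a, ha⟩ := exists_ne_one (A := A)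
    exact ⟨a, 1, ha⟩
  have c3 := Nat.pow_right_injective hA (le_antisymm c1 c2)
  have c4 : r = p := Subtype.ext c3
  subst c4
  exact ⟨F y, hF y⟩

lemma aut_N (φ : MulAut (GT A)) (x : GT A) (hx : x ∈ Nsub A) : φ x ∈ Nsub A := by
  have := N_ind' ((Nsub A).comap φ.toMonoidHom) (by
    intro q y
    obtain ⟨z, hz⟩ := aut_B φ q y
    show φ (bG q y) ∈ Nsub A
    rw [hz]
    exact ⟨rfl, rfl⟩) x hx.1 hx.2
  exact this

end Pool.Agent.Helper22.OR
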