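import Pool.Agent.Helper22.OR.O4

set_option linter.unusedSectionVars false
set_option linter.unusedVariables false

namespace Pool.Agent.Helper22.OR

open Filter

variable {A : Type} [Group A] [IsSimpleGroup A] [NC A] [Finite A]

lemma sG_conj_mod (z : GT A) (hz : z.1.n = 0) (a : A) :
    z * sG a * z⁻¹ * (sG (z.1.h 0 * a * (z.1.h 0)⁻¹))⁻¹ ∈ Nsub A := by
  rw [Nsub_iff]
  refine ⟨conj_n z.1 _ rfl, ?_⟩
  funext k
  show (z.1 * S 1 0 a * z.1⁻¹).h k = (S 1 0 (z.1.h 0 * a * (z.1.h 0)⁻¹)).h k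
  rw [conj_h _ _ (by simp), hz]
  simp only [S_h, sub_zero]
  by_cases hk : k = 0
  · subst hk; simp
  · simp [Pi.mulSingle_eq_of_ne hk]

lemma hmul (x y : GT A) (hx : x.1.n = 0) (k : ℤ) : (x * y).1.h k = x.1.h k * y.1.h k := by
  show x.1.h k * y.1.h (k - x.1.n) = _
  rw [hx, sub_zero]

/-- the images of the `sG a` have limits supported at a single position -/
lemma aut_s (φ : MulAut (GT A)) : ∃ j : ℤ, ∀ a, ∃ c, (φ (sG a)).1.h = Pi.mulSingle j c := by
  have hn : ∀ a, (φ (sG a)).1.n = 0 := fun a => aut_n φ (sG a) rfl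
  have hconj : ∀ z : GT A, z.1.n = 0 → ∀ a, ∃ a', ∀ k,
      z.1.h k * (φ (sG a)).1.h k * (z.1.h k)⁻¹ = (φ (sG a')).1.h k := by
    intro z hz a
    set z' := φ.symm z with hz'
    have hzn : z'.1.n = 0 := aut_n φ.symm z hz
    have h1 := sG_conj_mod z' hzn a
    have h2 := aut_N φ _ h1
    rw [map_mul, map_mul, map_mul, map_inv, map_inv] at h2
    have h3 : φ z' = z := φ.apply_symm_apply z
    rw [h3, Nsub_iff] at h2
    refine ⟨z'.1.h 0 * a * (z'.1.h 0)⁻¹, fun k => ?_⟩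
    rw [← congrFun h2.2 k]
    show _ = (z.1 * (φ (sG a)).1 * z.1⁻¹).h k
    rw [conj_h _ _ (hn a), hz, sub_zero]
  have hmulφ : ∀ a b k, (φ (sG (a * b))).1.h k = (φ (sG a)).1.h k * (φ (sG b)).1.h k := by
    intro a b k
    have : (sG (a * b) : GT A) = sG a * sG b := sHom.map_mul a b
    rw [this, map_mul, hmul _ _ (hn a)]
  have hone : ∀ k, (φ (sG 1)).1.h k = 1 := by
    intro k
    have : (sG 1 : GT A) = 1 := sHom.map_one
    rw [this, map_one]; rfl
  have hinv : ∀ a k, (φ (sG a⁻¹)).1.h k = ((φ (sG a)).1.h k)⁻¹ := by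
    intro a k
    rw [eq_inv_iff_mul_eq_one, ← hmulφ, inv_mul_cancel, hone]
  -- nontrivial
  obtain ⟨a0, ha0⟩ := exists_ne_one (A := A)
  have hne : (φ (sG a0)).1.h ≠ 1 := by
    intro h
    have h1 : φ (sG a0) ∈ Nsub A := ⟨hn a0, h⟩
    have h2 := aut_N φ.symm _ h1
    rw [MulEquiv.symm_apply_apply] at h2
    have h3 := congrFun h2.2 0
    change (Pi.mulSingle (0 : ℤ) a0 : ℤ → A) 0 = 1 at h3
    rw [Pi.mulSingle_eq_same] at h3
    exact ha0 h3
  have : ∃ j, (φ (sG a0)).1.h j ≠ 1 := by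
    by_contra hcon
    push Not at hcon
    exact hne (funext hcon)
  obtain ⟨j, hj⟩ := this
  refine ⟨j, ?_⟩
  let H : Subgroup A :=
    { carrier := {c | ∃ a, (φ (sG a)).1.h = Pi.mulSingle j c}
      one_mem' := ⟨1, by funext k; rw [hone, Pi.mulSingle_one]; rfl⟩
      mul_mem' := by
        rintro x y ⟨a, ha⟩ ⟨b, hb⟩
        refine ⟨a * b, ?_⟩
        funext k
        rw [hmulφ, ha, hb, Pi.mulSingle_mul]; rfl
      inv_mem' := by
        rintro x ⟨a, ha⟩
        refine ⟨a⁻¹, ?_⟩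
        funext k
        rw [hinv, ha, Pi.mulSingle_inv]; rfl }
  have hH : H = ⊤ := by
    apply normal_top
    · rintro b a ⟨c, hc⟩
      obtain ⟨a', ha'⟩ := hconj ⟨S 1 j b, S_mem 1 one_ne_zero j b⟩ rfl c
      refine ⟨a', ?_⟩
      funext k
      rw [← ha' k, hc]
      show (Pi.mulSingle j b : ℤ → A) k * (Pi.mulSingle j a : ℤ → A) k
        * ((Pi.mulSingle j b : ℤ → A) k)⁻¹ = _
      by_cases hk : k = j
      · subst hk; simp
      · simp [Pi.mulSingle_eq_of_ne hk]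
    · obtain ⟨b, hb⟩ := exists_not_comm _ hj
      refine ⟨(φ (sG a0)).1.h j * b * ((φ (sG a0)).1.h j)⁻¹ * b⁻¹, ?_, hb⟩
      -- commutator with `S 1 j b`: `x * (z x⁻¹ z⁻¹)`
      obtain ⟨a', ha'⟩ := hconj ⟨S 1 j b, S_mem 1 one_ne_zero j b⟩ rfl (a0⁻¹)
      refine ⟨a0 * a', ?_⟩
      funext k
      rw [hmulφ, ← ha' k, hinv]
      show (φ (sG a0)).1.h k * ((Pi.mulSingle j b : ℤ → A) k * ((φ (sG a0)).1.h k)⁻¹
        * ((Pi.mulSingle j b : ℤ → A) k)⁻¹) = _
      by_cases hk : k = j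
      · subst hk; simp [mul_assoc]
      · simp [Pi.mulSingle_eq_of_ne hk]
  have h1 : ∀ c : A, ∃ a, (φ (sG a)).1.h = Pi.mulSingle j c := by
    intro c
    have : c ∈ H := by rw [hH]; trivial
    exact this
  choose F hF using h1
  have hFi : Function.Injective F := by
    intro c c' h
    have : (Pi.mulSingle j c : ℤ → A) = Pi.mulSingle j c' := by rw [← hF, ← hF, h]
    exact Pi.mulSingle_injective j this
  have hFs := Finite.surjective_of_injective hFi
  intro a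
  obtain ⟨c, rfl⟩ := hFs a
  exact ⟨c, hF c⟩

lemma window (m : ℕ) : ∀ b : ℤ → A, (∀ k : ℤ, (m : ℤ) < |k| → b k = 1) →
    ∃ c : ℤ → A, Bd c ∧ ∀ k, k ≠ 0 → c k * b k * (c (k - 1))⁻¹ = 1 := by
  induction m with
  | zero =>
    intro b hb
    refine ⟨1, ⟨0, fun _ _ => rfl⟩, fun k hk => ?_⟩
    rw [hb k (by simpa using hk)]; simp
  | succ m ih =>
    intro b hb
    set l : ℤ := -(m + 1 : ℤ) with hl
    set c1 : ℤ → A := fun k => if k = l then (b l)⁻¹ else if k = m then b (m + 1) else 1 with hc1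
    obtain ⟨c', hc'1, hc'2⟩ := ih (fun k => c1 k * b k * (c1 (k - 1))⁻¹) (by
      intro k hk
      show c1 k * b k * (c1 (k - 1))⁻¹ = 1
      simp only [hc1]
      by_cases h1 : k = l
      · subst h1
        rw [if_pos rfl, if_neg (by omega), if_neg (by omega)]
        simp
      · by_cases h2 : k = m + 1
        · subst h2
          rw [if_neg (by omega), if_neg (by omega), if_neg (by omega), if_pos (by ring)]
          simp
        · have h3 : ((m + 1 : ℕ) : ℤ) < |k| := by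
            rw [lt_abs] at hk ⊢
            push_cast
            omega
          rw [hb k h3]
          have h4 : k ≠ m := by
            rintro rfl
            rw [abs_of_nonneg (by positivity)] at hk
            exact lt_irrefl _ hk
          rw [lt_abs] at h3
          push_cast at h3
          rw [if_neg h1, if_neg h4, if_neg (by omega), if_neg (by omega)]
          simp)
    refine ⟨fun k => c' k * c1 k, hc'1.mul ⟨m + 1, ?_⟩, ?_⟩
    · intro k hk
      simp only [hc1]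
      rw [lt_abs] at hk
      push_cast at hk
      rw [if_neg (by omega), if_neg (by omega)]
    · intro k hk
      have := hc'2 k hk
      simp only [mul_inv_rev]
      rw [← this]
      simp only [mul_assoc]

/-- normal form of an automorphism up to conjugation -/
lemma normal_form (φ : MulAut (GT A)) (hφ : (φ (tG 1)).1.n = 1) :
    ∃ g : GT A, (∀ a, ∃ c, (g * φ (sG a) * g⁻¹).1.h = Pi.mulSingle 0 c) ∧
      ∃ c, (g * φ (tG 1) * g⁻¹).1.h = Pi.mulSingle 0 c := by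
  obtain ⟨j, hj⟩ := aut_s φ
  set g1 : GT A := tG (-j) with hg1
  obtain ⟨m, hm⟩ := (g1 * φ (tG 1) * g1⁻¹).2.1
  obtain ⟨c, hcB, hc⟩ := window m _ hm
  obtain ⟨g2, hg2, hg2n, hg2h⟩ := lift_mem c hcB
  refine ⟨⟨g2, hg2⟩ * g1, ?_, ?_⟩
  · intro a
    obtain ⟨c', hc'⟩ := hj a
    refine ⟨c 0 * c' * (c 0)⁻¹, ?_⟩
    have e1 : (⟨g2, hg2⟩ * g1) * φ (sG a) * (⟨g2, hg2⟩ * g1)⁻¹
        = ⟨g2, hg2⟩ * (g1 * φ (sG a) * g1⁻¹) * (⟨g2, hg2⟩ : GT A)⁻¹ := by group
    rw [e1]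
    funext k
    show (g2 * (T (-j) * (φ (sG a)).1 * (T (-j))⁻¹) * g2⁻¹).h k = _
    rw [conj_h _ _ (conj_n _ _ (aut_n φ _ rfl)), hg2n, sub_zero,
      conj_h _ _ (aut_n φ _ rfl), hc', hg2h]
    simp only [T_h, T_n, Pi.one_apply, one_mul, inv_one, mul_one]
    rw [single_shift, add_neg_cancel]
    by_cases hk : k = 0
    · subst hk; simp
    · simp [Pi.mulSingle_eq_of_ne hk]
  · set x := g1 * φ (tG 1) * g1⁻¹ with hx
    have hxn : x.1.n = 1 := by
      show (-j) + (φ (tG 1)).1.n + -(-j) = 1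
      rw [hφ]; ring
    refine ⟨c 0 * x.1.h 0 * (c (0 - 1))⁻¹, ?_⟩
    have e1 : (⟨g2, hg2⟩ * g1) * φ (tG 1) * (⟨g2, hg2⟩ * g1)⁻¹
        = ⟨g2, hg2⟩ * x * (⟨g2, hg2⟩ : GT A)⁻¹ := by rw [hx]; group
    rw [e1]
    funext k
    show g2.h k * x.1.h (k - g2.n) * (g2.h (k - (g2.n + x.1.n) + g2.n))⁻¹ = _
    rw [hg2n, hxn, hg2h, sub_zero, zero_add, add_zero]
    by_cases hk : k = 0
    · subst hk; simp
    · rw [hc k hk, Pi.mulSingle_eq_of_ne hk]

/-- automorphisms trivial modulo `Nsub` and inner on the coordinate `p` -/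
def A0p (A : Type) [Group A] [IsSimpleGroup A] [NC A] [Finite A] (p : Nat.Primes) :
    Subgroup (MulAut (GT A)) where
  carrier := {φ | (∀ x, φ x * x⁻¹ ∈ Nsub A) ∧ ∃ y, ∀ z, φ (bG p z) = bG p (y * z * y⁻¹)}
  one_mem' := ⟨fun x => by simp, 1, fun z => by simp⟩
  mul_mem' := by
    rintro φ ψ ⟨h1, y1, h2⟩ ⟨h3, y2, h4⟩
    refine ⟨fun x => ?_, y1 * y2, fun z => ?_⟩
    · have := (Nsub A).mul_mem (h1 (ψ x)) (h3 x)
      simpa [mul_assoc] using this
    · show φ (ψ (bG p z)) = _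
      rw [h4, h2]
      congr 1
      simp [mul_assoc]
  inv_mem' := by
    rintro φ ⟨h1, y1, h2⟩
    refine ⟨fun x => ?_, y1⁻¹, fun z => ?_⟩
    · have := (Nsub A).inv_mem (h1 (φ⁻¹ x))
      have e : φ (φ⁻¹ x) = x := φ.apply_symm_apply x
      rw [e] at this
      simpa using this
    · have e : φ (bG p (y1⁻¹ * z * y1⁻¹⁻¹)) = bG p z := by
        rw [h2]
        congr 1
        group
      rw [← e]
      exact (φ.symm_apply_apply _)

def Inn (G : Type) [Group G] : Subgroup (MulAut G) := (MulAut.conj : G →* MulAut G).range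

instance InnN (G : Type) [Group G] : (Inn G).Normal := by
  constructor
  rintro _ ⟨g, rfl⟩ φ
  refine ⟨φ g, ?_⟩
  ext x
  show φ g * x * (φ g)⁻¹ = φ (g * (φ.symm x) * g⁻¹)
  rw [map_mul, map_mul, map_inv, MulEquiv.apply_symm_apply]

def Mp (A : Type) [Group A] [IsSimpleGroup A] [NC A] [Finite A] (p : Nat.Primes) :
    Subgroup (MulAut (GT A)) := A0p A p ⊔ Inn (GT A)

lemma fi_of_map {Γ : Type} [Group Γ] (M : Subgroup Γ) {X : Type} [Finite X] (F : Γ → X)
    (h : ∀ φ ψ, F φ = F ψ → φ * ψ⁻¹ ∈ M) : M.FiniteIndex := by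
  have : Finite (Γ ⧸ M) := by
    apply Finite.of_injective (fun q : Γ ⧸ M => F (q.out⁻¹))
    intro q r hqr
    have h1 := h _ _ hqr
    rw [inv_inv] at h1
    have h2 : ((q.out : Γ) : Γ ⧸ M) = ((r.out : Γ) : Γ ⧸ M) := QuotientGroup.eq.2 h1
    simpa using h2
  exact Subgroup.finiteIndex_of_finite_quotient

/-- comparison of two automorphisms with the same data -/
lemma compare (p : Nat.Primes) (φ ψ : MulAut (GT A)) (hφ : (φ (tG 1)).1.n = 1)
    (hψ : (ψ (tG 1)).1.n = 1) (hs : ∀ a, (φ (sG a)).1.h = (ψ (sG a)).1.h)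
    (ht : (φ (tG 1)).1.h = (ψ (tG 1)).1.h) (hb : ∀ z, φ (bG p z) = ψ (bG p z)) :
    φ * ψ⁻¹ ∈ A0p A p := by
  have h1 : ∀ y, φ y * (ψ y)⁻¹ ∈ Nsub A := by
    have key : (QuotientGroup.mk' (Nsub A)).comp φ.toMonoidHom
        = (QuotientGroup.mk' (Nsub A)).comp ψ.toMonoidHom := by
      apply hom_ext
      · intro a
        show ((φ (sG a) : GT A) : GT A ⧸ Nsub A) = ((ψ (sG a) : GT A) : GT A ⧸ Nsub A)
        rw [← div_eq_one, ← QuotientGroup.mk_div, QuotientGroup.eq_one_iff, div_eq_mul_inv,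
          Nsub_iff]
        exact ⟨by rw [aut_n φ _ rfl, aut_n ψ _ rfl], hs a⟩
      · show ((φ (tG 1) : GT A) : GT A ⧸ Nsub A) = ((ψ (tG 1) : GT A) : GT A ⧸ Nsub A)
        rw [← div_eq_one, ← QuotientGroup.mk_div, QuotientGroup.eq_one_iff, div_eq_mul_inv,
          Nsub_iff]
        exact ⟨by rw [hφ, hψ], ht⟩
    intro y
    have h2 := DFunLike.congr_fun key y
    change ((φ y : GT A) : GT A ⧸ Nsub A) = ((ψ y : GT A) : GT A ⧸ Nsub A) at h2
    rw [← div_eq_one, ← QuotientGroup.mk_div, QuotientGroup.eq_one_iff, div_eq_mul_inv] at h2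
    exact h2
  refine ⟨fun x => ?_, 1, fun z => ?_⟩
  · have h2 := h1 (ψ.symm x)
    rw [MulEquiv.apply_symm_apply] at h2
    exact h2
  · show φ (ψ.symm (bG p z)) = _
    obtain ⟨w, hw⟩ := aut_B ψ.symm p z
    rw [hw, hb, ← hw, MulEquiv.apply_symm_apply]
    simp

end Pool.Agent.Helper22.OR
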