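import Pool.Agent.Helper22.OR.O5

set_option linter.unusedSectionVars false
set_option linter.unusedVariables false

namespace Pool.Agent.Helper22.OR

open Filter

variable {A : Type} [Group A] [IsSimpleGroup A] [NC A] [Finite A]

open Classical in
/-- the chosen conjugator -/
noncomputable def cg (φ : MulAut (GT A)) : GT A :=
  if h : (φ (tG 1)).1.n = 1 then (normal_form φ h).choose else 1

lemma cg_spec (φ : MulAut (GT A)) (h : (φ (tG 1)).1.n = 1) :
    (∀ a, ∃ c, (cg φ * φ (sG a) * (cg φ)⁻¹).1.h = Pi.mulSingle 0 c) ∧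
      ∃ c, (cg φ * φ (tG 1) * (cg φ)⁻¹).1.h = Pi.mulSingle 0 c := by
  unfold cg
  rw [dif_pos h]
  exact (normal_form φ h).choose_spec

/-- the data of an automorphism -/
noncomputable def Dat (p : Nat.Primes) (φ : MulAut (GT A)) :
    (A → A) × A × ((ZMod (p : ℕ) → A) → (ZMod (p : ℕ) → A)) :=
  (fun a => (cg φ * φ (sG a) * (cg φ)⁻¹).1.h 0, (cg φ * φ (tG 1) * (cg φ)⁻¹).1.h 0,
    fun y => (cg φ * φ (bG p y) * (cg φ)⁻¹).1.f p)

lemma Dat_eq (p : Nat.Primes) (φ ψ : MulAut (GT A)) (hφ : (φ (tG 1)).1.n = 1)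
    (hψ : (ψ (tG 1)).1.n = 1) (h : Dat p φ = Dat p ψ) : φ * ψ⁻¹ ∈ Mp A p := by
  have h1 : ∀ a, (cg φ * φ (sG a) * (cg φ)⁻¹).1.h 0 = (cg ψ * ψ (sG a) * (cg ψ)⁻¹).1.h 0 :=
    fun a => congrFun (congrArg Prod.fst h) a
  have h2 : (cg φ * φ (tG 1) * (cg φ)⁻¹).1.h 0 = (cg ψ * ψ (tG 1) * (cg ψ)⁻¹).1.h 0 :=
    congrArg (fun t => t.2.1) h
  have h3 : ∀ y, (cg φ * φ (bG p y) * (cg φ)⁻¹).1.f p = (cg ψ * ψ (bG p y) * (cg ψ)⁻¹).1.f p :=
    fun y => congrFun (congrArg (fun t => t.2.2) h) y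
  obtain ⟨f1, f2⟩ := cg_spec φ hφ
  obtain ⟨g1, g2⟩ := cg_spec ψ hψ
  have key := compare p (MulAut.conj (cg φ) * φ) (MulAut.conj (cg ψ) * ψ)
    (by
      show (cg φ).1.n + (φ (tG 1)).1.n + -(cg φ).1.n = 1
      rw [hφ]; ring)
    (by
      show (cg ψ).1.n + (ψ (tG 1)).1.n + -(cg ψ).1.n = 1
      rw [hψ]; ring)
    (by
      intro a
      obtain ⟨c, hc⟩ := f1 a
      obtain ⟨d, hd⟩ := g1 a
      show (cg φ * φ (sG a) * (cg φ)⁻¹).1.h = (cg ψ * ψ (sG a) * (cg ψ)⁻¹).1.h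
      have := h1 a
      rw [hc, hd, Pi.mulSingle_eq_same, Pi.mulSingle_eq_same] at this
      rw [hc, hd, this])
    (by
      obtain ⟨c, hc⟩ := f2
      obtain ⟨d, hd⟩ := g2
      show (cg φ * φ (tG 1) * (cg φ)⁻¹).1.h = (cg ψ * ψ (tG 1) * (cg ψ)⁻¹).1.h
      have := h2
      rw [hc, hd, Pi.mulSingle_eq_same, Pi.mulSingle_eq_same] at this
      rw [hc, hd, this])
    (by
      intro z
      obtain ⟨w, hw⟩ := aut_B (MulAut.conj (cg φ) * φ) p z
      obtain ⟨v, hv⟩ := aut_B (MulAut.conj (cg ψ) * ψ) p z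
      have := h3 z
      change ((MulAut.conj (cg φ) * φ) (bG p z)).1.f p
        = ((MulAut.conj (cg ψ) * ψ) (bG p z)).1.f p at this
      rw [hw, hv] at this
      simp only [bG_val, Bq_f1] at this
      rw [hw, hv, this])
  have e : φ * ψ⁻¹ = (MulAut.conj (cg φ))⁻¹ *
      ((MulAut.conj (cg φ) * φ) * (MulAut.conj (cg ψ) * ψ)⁻¹) * MulAut.conj (cg ψ) := by group
  rw [e]
  have hI : ∀ g : GT A, MulAut.conj g ∈ Mp A p := fun g =>
    (le_sup_right : Inn (GT A) ≤ Mp A p) ⟨g, rfl⟩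
  exact (Mp A p).mul_mem ((Mp A p).mul_mem ((Mp A p).inv_mem (hI _))
    ((le_sup_left : A0p A p ≤ Mp A p) key)) (hI _)

lemma Mp_fi (p : Nat.Primes) : (Mp A p).FiniteIndex := by
  classical
  have : NeZero (p : ℕ) := ⟨p.2.ne_zero⟩
  by_cases hρ : ∃ ρ : MulAut (GT A), (ρ (tG 1)).1.n = -1
  · obtain ⟨ρ, hρ⟩ := hρ
    let R : MulAut (GT A) → MulAut (GT A) := fun φ => if (φ (tG 1)).1.n = 1 then 1 else ρ
    have hR : ∀ φ : MulAut (GT A), ((φ * R φ) (tG 1)).1.n = 1 := by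
      intro φ
      by_cases h : (φ (tG 1)).1.n = 1
      · simp only [R, if_pos h, mul_one]; exact h
      · simp only [R, if_neg h]
        have h2 := (aut_pm φ).resolve_left h
        show (φ (ρ (tG 1))).1.n = 1
        rw [aut_sign, hρ, h2]; rfl
    apply fi_of_map (Mp A p) (X := Bool × ((A → A) × A × ((ZMod (p : ℕ) → A) → (ZMod (p : ℕ) → A))))
      (fun φ => (decide ((φ (tG 1)).1.n = 1), Dat p (φ * R φ)))
    intro φ ψ h
    have h1 : decide ((φ (tG 1)).1.n = 1) = decide ((ψ (tG 1)).1.n = 1) := congrArg Prod.fst h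
    have h2 : Dat p (φ * R φ) = Dat p (ψ * R ψ) := congrArg Prod.snd h
    have h3 := Dat_eq p _ _ (hR φ) (hR ψ) h2
    have h4 : R φ = R ψ := by
      simp only [R]
      by_cases h5 : (φ (tG 1)).1.n = 1
      · have h6 : (ψ (tG 1)).1.n = 1 := by
          have : decide ((ψ (tG 1)).1.n = 1) = true := by rw [← h1]; simpa using h5
          simpa using this
        rw [if_pos h5, if_pos h6]
      · have h6 : ¬ (ψ (tG 1)).1.n = 1 := by
          have : decide ((ψ (tG 1)).1.n = 1) = false := by rw [← h1]; simpa using h5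
          simpa using this
        rw [if_neg h5, if_neg h6]
    rw [h4] at h3
    have h5 : φ * R ψ * (ψ * R ψ)⁻¹ = φ * ψ⁻¹ := by group
    rwa [h5] at h3
  · push Not at hρ
    have hs : ∀ φ : MulAut (GT A), (φ (tG 1)).1.n = 1 := fun φ =>
      (aut_pm φ).resolve_right (hρ φ)
    apply fi_of_map (Mp A p) (Dat p)
    intro φ ψ h
    exact Dat_eq p φ ψ (hs φ) (hs ψ) h

/-- centreless quotient -/
lemma centreless (k : GT A) (hk : ∀ x, k * x * k⁻¹ * x⁻¹ ∈ Nsub A) : k ∈ Nsub A := by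
  have hn : k.1.n = 0 := by
    obtain ⟨a, ha⟩ := exists_ne_one (A := A)
    have h1 := hk (sG a)
    rw [Nsub_iff] at h1
    have h2 := congrFun h1.2 0
    change (k.1 * S 1 0 a * k.1⁻¹).h 0 = (Pi.mulSingle (0 : ℤ) a : ℤ → A) 0 at h2
    rw [conj_h _ _ (by simp), Pi.mulSingle_eq_same] at h2
    simp only [S_h, zero_sub] at h2
    by_contra hne
    rw [Pi.mulSingle_eq_of_ne (by simpa using hne)] at h2
    simp at h2
    exact ha h2.symm
  refine ⟨hn, ?_⟩
  funext j
  apply eq_one_of_comm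
  intro a
  have h1 := hk ⟨S 1 j a, S_mem 1 one_ne_zero j a⟩
  rw [Nsub_iff] at h1
  have h2 := congrFun h1.2 j
  change (k.1 * S 1 j a * k.1⁻¹).h j = (Pi.mulSingle (j : ℤ) a : ℤ → A) j at h2
  rw [conj_h _ _ (by simp), Pi.mulSingle_eq_same, hn] at h2
  simpa using h2

lemma cent (w : GT A) (hw : ∀ p z, w * bG p z * w⁻¹ = bG p z) : w = 1 := by
  obtain ⟨a, ha⟩ := exists_ne_one (A := A)
  have hn : w.1.n = 0 := by
    obtain ⟨p, hp, _⟩ := exists_large (w.1.n).natAbs ∅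
    apply cast_eq_zero _ p hp
    have h1 := hw p (Pi.mulSingle 0 a)
    rw [conj_bG] at h1
    have h2 := congrFun (bG_inj h1) 0
    simp only [Pi.mulSingle_eq_same, zero_sub] at h2
    by_contra hne
    rw [Pi.mulSingle_eq_of_ne (by simpa using hne)] at h2
    simp at h2
    exact ha h2.symm
  have hf : ∀ p i, w.1.f p i = 1 := by
    intro p i
    apply eq_one_of_comm
    intro b
    have h1 := hw p (Pi.mulSingle i b)
    rw [conj_bG, hn] at h1
    have h2 := congrFun (bG_inj h1) i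
    simpa using h2
  have hh : w.1.h = 1 := h_of_f w.2 (Eventually.of_forall fun p => by
    funext i; exact hf p i)
  apply Subtype.ext
  apply ext3
  · intro p i; rw [hf p i]; rfl
  · intro k; rw [hh]; rfl
  · exact hn

lemma detect (φ0 : MulAut (GT A)) (h : ∀ p, φ0 ∈ Mp A p) : φ0 ∈ Inn (GT A) := by
  obtain ⟨a, ha, _, ⟨g, rfl⟩, hag⟩ := Subgroup.mem_sup_of_normal_right.1 (h ⟨2, Nat.prime_two⟩)
  have ha1 := ha.1
  -- on each coordinate `a` is inner
  have hy : ∀ p : Nat.Primes, ∃ y : ZMod (p : ℕ) → A, ∀ z, a (bG p z) = bG p (y * z * y⁻¹) := by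
    intro p
    obtain ⟨b, hb, _, ⟨g', rfl⟩, hbg⟩ := Subgroup.mem_sup_of_normal_right.1 (h p)
    obtain ⟨hb1, y1, hy1⟩ := hb
    set k := g' * g⁻¹ with hk
    have e1 : a = b * MulAut.conj k := by
      rw [hk, map_mul, map_inv, ← mul_assoc, hbg, ← hag]; group
    have hkN : k ∈ Nsub A := by
      apply centreless
      intro x
      have h1 : ((A0p A p).carrier) b := ⟨hb1, y1, hy1⟩
      have h2 : b⁻¹ ∈ A0p A p := (A0p A p).inv_mem ⟨hb1, y1, hy1⟩
      have h3 : MulAut.conj k = b⁻¹ * a := by rw [e1]; group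
      have h4 : k * x * k⁻¹ = b⁻¹ (a x) := DFunLike.congr_fun h3 x
      rw [h4]
      have h5 := (Nsub A).mul_mem (h2.1 (a x)) (ha1 x)
      simpa [mul_assoc] using h5
    refine ⟨y1 * k.1.f p, fun z => ?_⟩
    rw [e1]
    show b (k * bG p z * k⁻¹) = _
    rw [conj_bG, hy1]
    congr 1
    funext i
    simp only [hkN.1, Int.cast_zero, sub_zero, Pi.mul_apply, Pi.inv_apply, mul_inv_rev, mul_assoc]
  choose y hy using hy
  -- eventually trivial
  have hev : ∀ x : GT A, ∀ᶠ p : Nat.Primes in cofinite, (a x).1.f p = x.1.f p := by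
    intro x
    set ν := a x * x⁻¹ with hν
    have h1 := ha1 x
    rw [← hν] at h1
    have h2 : a x = ν * x := by rw [hν]; group
    filter_upwards [ν.2.2] with p hp
    rw [h2]
    funext i
    show ν.1.f p i * x.1.f p (i - (ν.1.n : ZMod (p : ℕ))) = x.1.f p i
    rw [hp i, h1.1, h1.2]; simp
  have hn : ∀ x : GT A, (a x).1.n = x.1.n := by
    intro x
    have h1 := ha1 x
    rw [Nsub_iff] at h1
    exact h1.1
  have hev2 : ∀ᶠ p : Nat.Primes in cofinite, y p = 1 := by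
    have h1 : ∀ᶠ p : Nat.Primes in cofinite, ∀ c : A, (a (sG c)).1.f p = (sG c).1.f p := by
      rw [Filter.eventually_all]
      intro c
      exact hev (sG c)
    filter_upwards [h1, hev (tG 1)] with p hs ht
    let K : Subgroup (GT A) :=
      { carrier := {x | (a x).1.f p = x.1.f p}
        one_mem' := by
          show (a 1).1.f p = (1 : GT A).1.f p
          rw [map_one]
        mul_mem' := by
          intro u v hu hv
          show (a (u * v)).1.f p = (u * v).1.f p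
          rw [map_mul]
          funext i
          show (a u).1.f p i * (a v).1.f p (i - ((a u).1.n : ZMod (p : ℕ)))
            = u.1.f p i * v.1.f p (i - (u.1.n : ZMod (p : ℕ)))
          rw [hn u, show (a u).1.f p = u.1.f p from hu, show (a v).1.f p = v.1.f p from hv]
        inv_mem' := by
          intro u hu
          show (a u⁻¹).1.f p = (u⁻¹).1.f p
          rw [map_inv]
          funext i
          show ((a u).1.f p (i + ((a u).1.n : ZMod (p : ℕ))))⁻¹
            = (u.1.f p (i + (u.1.n : ZMod (p : ℕ))))⁻¹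
          rw [hn u, show (a u).1.f p = u.1.f p from hu] }
    have hK : ∀ x, x ∈ K := gen_top K hs ht
    funext i
    apply eq_one_of_comm
    intro b
    have h3 : (a (bG p (Pi.mulSingle i b))).1.f p = (bG p (Pi.mulSingle i b)).1.f p := hK _
    rw [hy p] at h3
    simp only [bG_val, Bq_f1] at h3
    have h4 := congrFun h3 i
    simpa using h4
  -- the conjugator
  have hmem : (⟨fun p => y p, fun _ => 1, 0⟩ : U A) ∈ GG A := by
    refine ⟨⟨0, fun _ _ => rfl⟩, ?_⟩
    filter_upwards [hev2] with p hp i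
    show y p i = 1
    rw [hp]; rfl
  set Y : GT A := ⟨⟨fun p => y p, fun _ => 1, 0⟩, hmem⟩ with hY
  have hYB : ∀ p z, Y * bG p z * Y⁻¹ = a (bG p z) := by
    intro p z
    rw [hy p, conj_bG]
    congr 1
    funext i
    show y p i * z (i - ((0 : ℤ) : ZMod (p : ℕ))) * (y p i)⁻¹ = _
    simp
  have haY : ∀ x, a x = Y * x * Y⁻¹ := by
    intro x
    have h1 : x⁻¹ * (Y⁻¹ * a x * Y) = 1 := by
      apply cent
      intro p z
      -- `x b x⁻¹ = b'` in the same coordinate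
      obtain ⟨b', hb'⟩ : ∃ z', x * bG p z * x⁻¹ = bG p z' := ⟨_, conj_bG x p z⟩
      have h2 : a x * a (bG p z) * (a x)⁻¹ = a (bG p b') := by
        rw [← hb', map_mul, map_mul, map_inv]
      rw [← hYB p z, ← hYB p b', ← hb'] at h2
      -- cancel
      have h3 : (Y⁻¹ * a x * Y) * bG p z * (Y⁻¹ * a x * Y)⁻¹ = x * bG p z * x⁻¹ := by
        calc (Y⁻¹ * a x * Y) * bG p z * (Y⁻¹ * a x * Y)⁻¹
            = Y⁻¹ * (a x * (Y * bG p z * Y⁻¹) * (a x)⁻¹) * Y := by group
          _ = Y⁻¹ * (Y * (x * bG p z * x⁻¹) * Y⁻¹) * Y := by rw [h2]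
          _ = _ := by group
      calc x⁻¹ * (Y⁻¹ * a x * Y) * bG p z * (x⁻¹ * (Y⁻¹ * a x * Y))⁻¹
          = x⁻¹ * ((Y⁻¹ * a x * Y) * bG p z * (Y⁻¹ * a x * Y)⁻¹) * x := by group
        _ = x⁻¹ * (x * bG p z * x⁻¹) * x := by rw [h3]
        _ = bG p z := by group
    have h2 : Y⁻¹ * a x * Y = x := by
      have := inv_mul_eq_one.1 h1
      exact this.symm
    calc a x = Y * (Y⁻¹ * a x * Y) * Y⁻¹ := by group
      _ = Y * x * Y⁻¹ := by rw [h2]
  refine ⟨Y * g, ?_⟩
  rw [← hag, map_mul]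
  congr 1
  ext x : 1
  exact (haY x).symm

abbrev Out (G : Type) [Group G] : Type := MulAut G ⧸ Inn G

lemma rf_out : RF (Out (GT A)) := by
  intro q hq
  obtain ⟨φ, rfl⟩ := QuotientGroup.mk_surjective q
  have h1 : φ ∉ Inn (GT A) := fun h => hq ((QuotientGroup.eq_one_iff _).2 h)
  have h2 : ∃ p, φ ∉ Mp A p := by
    by_contra hcon
    push Not at hcon
    exact h1 (detect φ hcon)
  obtain ⟨p, hp⟩ := h2
  have hfi := Mp_fi (A := A) p
  have hle : Inn (GT A) ≤ (Mp A p).normalCore :=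
    Subgroup.normal_le_normalCore.2 le_sup_right
  refine ⟨MulAut (GT A) ⧸ (Mp A p).normalCore, inferInstance, ?_,
    QuotientGroup.lift (Inn (GT A)) (QuotientGroup.mk' (Mp A p).normalCore) ?_, ?_⟩
  · have : (Mp A p).normalCore.FiniteIndex := inferInstance
    exact Subgroup.finite_quotient_of_finiteIndex
  · intro x hx
    exact (QuotientGroup.eq_one_iff x).2 (hle hx)
  · intro h
    have h3 : ((φ : MulAut (GT A)) : MulAut (GT A) ⧸ (Mp A p).normalCore) = 1 := h
    rw [QuotientGroup.eq_one_iff] at h3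
    exact hp (Subgroup.normalCore_le _ h3)

lemma inf_out : Infinite (Out (GT A)) := by
  apply Infinite.of_injective (fun q : Nat.Primes => ((tau q 1 : MulAut (GT A)) : Out (GT A)))
  intro q r hqr
  by_contra hne
  have h1 : (tau q 1 : MulAut (GT A))⁻¹ * tau r 1 ∈ Inn (GT A) := QuotientGroup.eq.1 hqr
  have h2 : (tau r 1 : MulAut (GT A)) * (tau q 1)⁻¹ ∈ Inn (GT A) := by
    have := (InnN (GT A)).conj_mem _ h1 (tau q 1)
    simpa [mul_assoc] using this
  obtain ⟨g, hg⟩ := h2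
  apply tau_ne r q hne (tau q 1) (fun p hp y => tau_other q 1 p hp y) g
  intro x
  have h3 := DFunLike.congr_fun hg (tau q 1 x)
  change g * tau q 1 x * g⁻¹ = tau r 1 ((tau q 1).symm (tau q 1 x)) at h3
  rw [MulEquiv.symm_apply_apply] at h3
  exact h3.symm

/-- the automorphism induced on the quotient by a characteristic subgroup -/
def kappa {G : Type} [Group G] (K : Subgroup G) [hK : K.Characteristic] (φ : MulAut G) :
    MulAut (G ⧸ K) :=
  QuotientGroup.congr K K φ (Subgroup.characteristic_iff_map_eq.1 hK φ)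

/-- inner automorphism separable -/
def IAS (G : Type) [Group G] : Prop :=
  ∀ φ : MulAut G, φ ∉ Inn G → ∃ (K : Subgroup G) (_ : K.Characteristic),
    K.FiniteIndex ∧ kappa K φ ∉ Inn (G ⧸ K)

lemma not_ias : ¬ IAS (GT A) := by
  intro h
  set q : Nat.Primes := ⟨2, Nat.prime_two⟩
  obtain ⟨K, hK, hKf, hk⟩ := h (tau q 1) (by
    rintro ⟨g, hg⟩
    apply tau_ne q ⟨3, Nat.prime_three⟩ (by
      intro h
      have := congrArg Subtype.val h
      norm_num [q] at this) 1 (fun _ _ _ => rfl) g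
    intro x
    exact (DFunLike.congr_fun hg x).symm)
  apply hk
  obtain ⟨g, hg⟩ := locally_inner q K inferInstance hKf
  refine ⟨(g : GT A ⧸ K), ?_⟩
  ext x
  obtain ⟨x, rfl⟩ := QuotientGroup.mk_surjective x
  show (g : GT A ⧸ K) * (x : GT A ⧸ K) * (g : GT A ⧸ K)⁻¹ = ((tau q 1 x : GT A) : GT A ⧸ K)
  have h1 := hg x
  rw [← QuotientGroup.eq_one_iff] at h1
  rw [QuotientGroup.mk_mul, QuotientGroup.mk_inv, mul_inv_eq_one] at h1
  rw [h1]
  rfl

end Pool.Agent.Helper22.OR
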